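import Mathlib

set_option autoImplicit false

namespace Pool.Agent.Lib.MP_1ccaad_nt

open Finset Filter

theorem pow_dvd_asc {p k n n' : ℕ} (hn : n < n') (h1 : p ^ k ∣ n.factorial + 1)
    (h2 : p ^ k ∣ n'.factorial + 1) : (p : ℤ) ^ k ∣ ((n + 1).ascFactorial (n' - n) : ℤ) - 1 := by
  have e : n.factorial * (n + 1).ascFactorial (n' - n) = n'.factorial := by
    rw [Nat.factorial_mul_ascFactorial, Nat.add_sub_cancel' hn.le]
  have h1' : (p : ℤ) ^ k ∣ (n.factorial : ℤ) + 1 := by exact_mod_cast h1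
  have h2' : (p : ℤ) ^ k ∣ (n'.factorial : ℤ) + 1 := by exact_mod_cast h2
  have e' : (n.factorial : ℤ) * ((n + 1).ascFactorial (n' - n) : ℤ) = n'.factorial := by
    exact_mod_cast e
  have h3 := dvd_sub (Dvd.dvd.mul_right h1' ((n + 1).ascFactorial (n' - n) : ℤ)) h2'
  have h4 : ((n.factorial : ℤ) + 1) * ((n + 1).ascFactorial (n' - n) : ℤ) - ((n'.factorial : ℤ) + 1)
      = ((n + 1).ascFactorial (n' - n) : ℤ) - 1 := by
    rw [← e']; ring
  rwa [h4] at h3

theorem lt_of_dvd {p k n : ℕ} (hp : p.Prime) (hk : 1 ≤ k) (h : p ^ k ∣ n.factorial + 1) : n < p := by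
  by_contra hc
  push Not at hc
  have h1 : p ∣ n.factorial := (Nat.Prime.dvd_factorial hp).2 hc
  have h2 : p ∣ n.factorial + 1 := (dvd_pow_self p (by omega)).trans h
  exact hp.one_lt.ne' (Nat.dvd_one.1 ((Nat.dvd_add_right h1).1 h2))

/-- the products of consecutive integers are at most `N ^ g` -/
theorem asc_le {n n' N : ℕ} (hn : n < n') (hN : n' ≤ N) :
    (n + 1).ascFactorial (n' - n) ≤ N ^ (n' - n) := by
  refine (Nat.ascFactorial_le_pow_add n (n' - n)).trans ?_
  rw [Nat.add_sub_cancel' hn.le]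
  exact Nat.pow_le_pow_left hN _

theorem log_ge {p k n N m : ℕ} (hp : p.Prime) (hk : 1 ≤ k) (h : p ^ k ∣ n.factorial + 1)
    (hN : N ≤ m * n) (hN1 : 1 ≤ N) : Real.log N - Real.log m ≤ Real.log p := by
  have h1 := lt_of_dvd hp hk h
  have hm : 1 ≤ m := by
    rcases Nat.eq_zero_or_pos m with rfl | h2
    · simp at hN; omega
    · exact h2
  have hn : 1 ≤ n := by
    rcases Nat.eq_zero_or_pos n with rfl | h2
    · simp at hN; omega
    · exact h2
  have h2 : (N : ℝ) ≤ m * n := by exact_mod_cast hN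
  have h3 : Real.log N ≤ Real.log m + Real.log n := by
    rw [← Real.log_mul (by positivity) (by positivity)]
    exact Real.log_le_log (by exact_mod_cast hN1) h2
  have h4 : Real.log n ≤ Real.log p := Real.log_le_log (by exact_mod_cast hn) (by exact_mod_cast h1.le)
  linarith

/-- first gap principle -/
theorem gap0 {p k n n' N m : ℕ} (hp : p.Prime) (hk : 1 ≤ k) (hnn : n < n')
    (h1 : p ^ k ∣ n.factorial + 1) (h2 : p ^ k ∣ n'.factorial + 1) (hN : N ≤ m * n)
    (hn' : n' ≤ N) : (k : ℝ) * (Real.log N - Real.log m) ≤ ((n' : ℝ) - n) * Real.log N := by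
  have hN1 : 1 ≤ N := by omega
  have hl := log_ge hp hk h1 hN hN1
  have hn : 1 ≤ n := by
    rcases Nat.eq_zero_or_pos n with rfl | h2
    · simp at hN; omega
    · exact h2
  have h3 := pow_dvd_asc hnn h1 h2
  have h4 : (1 : ℤ) < ((n + 1).ascFactorial (n' - n) : ℤ) := by
    have : 1 < (n + 1).ascFactorial (n' - n) := by
      have h5 := Nat.pow_succ_le_ascFactorial (n + 1) (n' - n)
      have h6 : n + 1 ≤ (n + 1) ^ (n' - n) := Nat.le_self_pow (by omega) _
      omega
    exact_mod_cast this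
  have h5 := Int.le_of_dvd (by omega) h3
  have h6 : p ^ k ≤ N ^ (n' - n) := by
    have h7 : ((p : ℤ) ^ k) ≤ ((n + 1).ascFactorial (n' - n) : ℤ) := by omega
    have h8 : p ^ k ≤ (n + 1).ascFactorial (n' - n) := by exact_mod_cast h7
    exact h8.trans (asc_le hnn hn')
  have h7 : (k : ℝ) * Real.log p ≤ ((n' - n : ℕ) : ℝ) * Real.log N := by
    rw [← Real.log_pow, ← Real.log_pow]
    apply Real.log_le_log
    · have := hp.pos
      positivity
    · exact_mod_cast h6
  rw [Nat.cast_sub hnn.le] at h7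
  refine le_trans ?_ h7
  exact mul_le_mul_of_nonneg_left hl (Nat.cast_nonneg _)

theorem log_factorial_ge (g : ℕ) (hg : 1 ≤ g) :
    (g : ℝ) * Real.log g - g ≤ Real.log (g.factorial) := by
  have h := Real.pow_div_factorial_le_exp (g : ℝ) (Nat.cast_nonneg g) g
  have hg0 : (0 : ℝ) < g := by exact_mod_cast hg
  have hf : (0 : ℝ) < g.factorial := by exact_mod_cast Nat.factorial_pos g
  have h2 := Real.log_le_log (by positivity) h
  rw [Real.log_exp, Real.log_div (by positivity) (by positivity), Real.log_pow] at h2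
  linarith

/-- second gap principle, divisibility part -/
theorem gap1_core {p k n₁ n₂ n₃ n₄ N m : ℕ} (hp : p.Prime) (hk : 2 ≤ k)
    (h12 : n₁ < n₂) (h34 : n₃ < n₄) (hN : N ≤ m * n₁) (hn2 : n₂ ≤ N) (hn4 : n₄ ≤ N)
    (hN3 : N ≤ m * n₃)
    (d1 : p ^ k ∣ n₁.factorial + 1) (d2 : p ^ k ∣ n₂.factorial + 1)
    (d3 : p ^ k ∣ n₃.factorial + 1) (d4 : p ^ k ∣ n₄.factorial + 1)
    (hg : n₂ - n₁ ≤ n₄ - n₃) (hm : 2 * Real.log m ≤ Real.log N)
    (hne : (n₁ + 1).ascFactorial (n₂ - n₁) ≠ (n₃ + 1).ascFactorial (n₄ - n₃)) :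
    (k : ℝ) * (Real.log N - Real.log m) + (Real.log k - 2) * ((n₂ : ℝ) - n₁) ≤
      ((n₄ : ℝ) - n₃) * Real.log N := by
  have hN1 : 1 ≤ N := by omega
  have hl := log_ge hp (by omega) d1 hN hN1
  have g0 := gap0 hp (by omega) h12 d1 d2 hN hn2
  obtain ⟨g, rfl⟩ : ∃ g, n₂ = n₁ + g := ⟨n₂ - n₁, by omega⟩
  obtain ⟨g', rfl⟩ : ∃ g', n₄ = n₃ + g' := ⟨n₄ - n₃, by omega⟩
  have e1 : n₁ + g - n₁ = g := by omega
  have e2 : n₃ + g' - n₃ = g' := by omega
  rw [e1, e2] at hg hne
  have hg1 : 1 ≤ g := by omega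
  have dd1 := pow_dvd_asc h12 d1 d2
  have dd2 := pow_dvd_asc h34 d3 d4
  rw [e1] at dd1
  rw [e2] at dd2
  have a1 := asc_le h12 hn2
  have a2 := asc_le h34 hn4
  rw [e1] at a1
  rw [e2] at a2
  set P := (n₁ + 1).ascFactorial g with hP
  set Q := (n₃ + 1).ascFactorial g' with hQ
  have d5 : (p : ℤ) ^ k ∣ (Q : ℤ) - P := by
    have := dvd_sub dd2 dd1
    have e : ((Q : ℤ) - 1) - ((P : ℤ) - 1) = (Q : ℤ) - P := by ring
    rwa [e] at this
  have d6 : (g.factorial : ℤ) ∣ (Q : ℤ) - P := by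
    apply dvd_sub
    · have : g.factorial ∣ Q := (Nat.factorial_dvd_factorial hg).trans
        (Nat.factorial_dvd_ascFactorial _ _)
      exact_mod_cast this
    · have : g.factorial ∣ P := Nat.factorial_dvd_ascFactorial _ _
      exact_mod_cast this
  have hgp : g < p := by
    have := lt_of_dvd hp (by omega) d2
    omega
  have hco : IsCoprime ((p : ℤ) ^ k) (g.factorial : ℤ) := by
    have h1 : Nat.Coprime (p ^ k) g.factorial := by
      apply Nat.Coprime.pow_left
      rw [Nat.Prime.coprime_iff_not_dvd hp, Nat.Prime.dvd_factorial hp]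
      omega
    exact_mod_cast Nat.isCoprime_iff_coprime.2 h1
  have d7 : (p : ℤ) ^ k * (g.factorial : ℤ) ∣ (Q : ℤ) - P := hco.mul_dvd d5 d6
  have hPpos : 1 ≤ P := Nat.ascFactorial_pos _ _
  have hQpos : 1 ≤ Q := Nat.ascFactorial_pos _ _
  have hP2 : P ≤ N ^ g' := a1.trans (Nat.pow_le_pow_right hN1 hg)
  have habs : |(Q : ℤ) - P| < (N : ℤ) ^ g' := by
    rw [abs_lt]
    have h1 : (P : ℤ) ≤ (N : ℤ) ^ g' := by exact_mod_cast hP2
    have h2 : (Q : ℤ) ≤ (N : ℤ) ^ g' := by exact_mod_cast a2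
    have h3 : (1 : ℤ) ≤ P := by exact_mod_cast hPpos
    have h4 : (1 : ℤ) ≤ Q := by exact_mod_cast hQpos
    constructor <;> linarith
  have hne' : (Q : ℤ) - P ≠ 0 := by
    intro h
    apply hne
    have : (P : ℤ) = Q := (sub_eq_zero.1 h).symm
    exact_mod_cast this
  have h8 : (p : ℤ) ^ k * (g.factorial : ℤ) ≤ |(Q : ℤ) - P| :=
    Int.le_of_dvd (abs_pos.2 hne') ((dvd_abs _ _).2 d7)
  have h9 : p ^ k * g.factorial ≤ N ^ g' := by
    have := h8.trans habs.le
    exact_mod_cast this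
  have hp0 : (0 : ℝ) < p := by exact_mod_cast hp.pos
  have hf : (0 : ℝ) < g.factorial := by exact_mod_cast Nat.factorial_pos g
  have h10 : (k : ℝ) * Real.log p + Real.log g.factorial ≤ (g' : ℝ) * Real.log N := by
    have h11 : Real.log ((p : ℝ) ^ k * g.factorial) ≤ Real.log ((N : ℝ) ^ g') := by
      apply Real.log_le_log (by positivity)
      exact_mod_cast h9
    rwa [Real.log_mul (by positivity) (by positivity), Real.log_pow, Real.log_pow] at h11
  have hx : 0 ≤ Real.log N := Real.log_natCast_nonneg N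
  -- `g ≥ k / 2`
  have hgk : (k : ℝ) / 2 * Real.log N ≤ (g : ℝ) * Real.log N := by
    push_cast at g0
    have h12 : (k : ℝ) * (Real.log N / 2) ≤ (k : ℝ) * (Real.log N - Real.log m) :=
      mul_le_mul_of_nonneg_left (by linarith) (Nat.cast_nonneg k)
    have h13 : ((n₁ : ℝ) + g - n₁) * Real.log N = g * Real.log N := by ring
    rw [h13] at g0
    linarith
  have hn1 : 1 ≤ n₁ := by
    rcases Nat.eq_zero_or_pos n₁ with h | h
    · rw [h] at hN; omega
    · exact h
  have hN2 : 2 ≤ N := by omega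
  have hxpos : 0 < Real.log N := Real.log_pos (by exact_mod_cast hN2)
  have hgk2 : (k : ℝ) / 2 ≤ g := le_of_mul_le_mul_right hgk hxpos
  have hkpos : (0 : ℝ) < k := by
    have : 0 < k := by omega
    exact_mod_cast this
  have hlg : Real.log k - 1 ≤ Real.log g := by
    have h14 : Real.log ((k : ℝ) / 2) ≤ Real.log g := Real.log_le_log (by positivity) hgk2
    rw [Real.log_div (by positivity) (by norm_num)] at h14
    have := Real.log_two_lt_d9
    linarith
  have hfac := log_factorial_ge g hg1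
  have hgpos : (0 : ℝ) < g := by exact_mod_cast hg1
  have h15 : (Real.log k - 2) * g ≤ Real.log g.factorial := by
    have : (Real.log k - 2) * g ≤ (Real.log g - 1) * g :=
      mul_le_mul_of_nonneg_right (by linarith) hgpos.le
    linarith
  have h16 : (k : ℝ) * (Real.log N - Real.log m) ≤ k * Real.log p :=
    mul_le_mul_of_nonneg_left hl hkpos.le
  push_cast
  have e3 : (n₁ : ℝ) + g - n₁ = g := by ring
  have e4 : (n₃ : ℝ) + g' - n₃ = g' := by ring
  rw [e3, e4]
  linarith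

end Pool.Agent.Lib.MP_1ccaad_nt
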