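import Mathlib
import Pool.Agent.Lib.MP_1ccaad_nt.Gap

set_option autoImplicit false

namespace Pool.Agent.Lib.MP_1ccaad_nt

open Finset Filter

theorem exists_dvd_of_dvd_asc {q n g : ℕ} (hq : q.Prime) (h : q ∣ (n + 1).ascFactorial g) :
    ∃ i, n < i ∧ i ≤ n + g ∧ q ∣ i := by
  rw [Nat.ascFactorial_eq_prod_range] at h
  obtain ⟨i, hi, hd⟩ := (Prime.dvd_finset_prod_iff hq.prime _).1 h
  have := Finset.mem_range.1 hi
  exact ⟨n + 1 + i, by omega, by omega, hd⟩

theorem asc_ne_core {n₁ n₂ n₃ n₄ N m W : ℕ} (h12 : n₁ < n₂) (h23 : n₂ ≤ n₃) (h34 : n₃ < n₄)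
    (hn4 : n₄ ≤ N) (hN : N ≤ m * n₁) (hW : n₄ ≤ n₁ + W)
    (he : (n₁ + 1).ascFactorial (n₂ - n₁) = (n₃ + 1).ascFactorial (n₄ - n₃)) :
    ((n₂ : ℝ) - n₁) * (Real.log N - Real.log m - Real.log W) ≤
      (Nat.primeCounting W : ℝ) * Real.log N := by
  obtain ⟨g, rfl⟩ : ∃ g, n₂ = n₁ + g := ⟨n₂ - n₁, by omega⟩
  obtain ⟨g', rfl⟩ : ∃ g', n₄ = n₃ + g' := ⟨n₄ - n₃, by omega⟩
  have e1 : n₁ + g - n₁ = g := by omega
  have e2 : n₃ + g' - n₃ = g' := by omega
  rw [e1, e2] at he
  have hg1 : 1 ≤ g := by omega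
  have hN1 : 1 ≤ N := by omega
  have hm : 1 ≤ m := by
    rcases Nat.eq_zero_or_pos m with rfl | h2
    · simp at hN; omega
    · exact h2
  have hn : 1 ≤ n₁ := by
    rcases Nat.eq_zero_or_pos n₁ with h | h2
    · rw [h] at hN; omega
    · exact h2
  set c := (n₁ + g).choose g with hc
  have hcP : (n₁ + 1).ascFactorial g = g.factorial * c := by
    rw [hc, Nat.ascFactorial_eq_factorial_mul_choose]
  have hcpos : 0 < c := Nat.choose_pos (by omega)
  -- smoothness
  have hsm : c.primeFactors ⊆ Nat.primesLE W := by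
    intro q hq
    have hqp := Nat.prime_of_mem_primeFactors hq
    have hqc : q ∣ c := Nat.dvd_of_mem_primeFactors hq
    have hqP : q ∣ (n₁ + 1).ascFactorial g := by rw [hcP]; exact Dvd.dvd.mul_left hqc _
    obtain ⟨i, hi1, hi2, hi⟩ := exists_dvd_of_dvd_asc hqp hqP
    rw [he] at hqP
    obtain ⟨j, hj1, hj2, hj⟩ := exists_dvd_of_dvd_asc hqp hqP
    have h1 : q ∣ j - i := Nat.dvd_sub hj hi
    have h2 := Nat.le_of_dvd (by omega) h1
    rw [Nat.mem_primesLE]
    exact ⟨by omega, hqp⟩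
  have hup : c ≤ N ^ Nat.primeCounting W := by
    have h1 : c = ∏ q ∈ c.primeFactors, q ^ c.factorization q := by
      conv_lhs => rw [← Nat.prod_factorization_pow_eq_self hcpos.ne']
      rw [Finsupp.prod, Nat.support_factorization]
    calc c = ∏ q ∈ c.primeFactors, q ^ c.factorization q := h1
      _ ≤ ∏ q ∈ c.primeFactors, N := by
          apply Finset.prod_le_prod' fun q _ => ?_
          refine (Nat.pow_factorization_choose_le (by omega)).trans ?_
          omega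
      _ = N ^ c.primeFactors.card := by rw [Finset.prod_const]
      _ ≤ N ^ (Nat.primesLE W).card := Nat.pow_le_pow_right hN1 (Finset.card_le_card hsm)
      _ = N ^ Nat.primeCounting W := by rw [Nat.primesLE_card_eq_primeCounting]
  have hlow : (n₁ : ℝ) ^ g ≤ (g : ℝ) ^ g * c := by
    have h1 : n₁ ^ g ≤ (n₁ + 1).ascFactorial g :=
      (Nat.pow_le_pow_left (Nat.le_succ _) _).trans (Nat.pow_succ_le_ascFactorial (n₁ + 1) g)
    rw [hcP] at h1
    have h2 : n₁ ^ g ≤ g ^ g * c := h1.trans (Nat.mul_le_mul_right _ (Nat.factorial_le_pow g))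
    exact_mod_cast h2
  have hgpos : (0 : ℝ) < g := by exact_mod_cast hg1
  have hcpos' : (0 : ℝ) < c := by exact_mod_cast hcpos
  have hn' : (0 : ℝ) < n₁ := by exact_mod_cast hn
  have hm' : (0 : ℝ) < m := by exact_mod_cast hm
  have hN' : (0 : ℝ) < N := by exact_mod_cast hN1
  have l1 : (g : ℝ) * Real.log n₁ ≤ g * Real.log g + Real.log c := by
    have := Real.log_le_log (by positivity) hlow
    rwa [Real.log_mul (by positivity) (by positivity), Real.log_pow, Real.log_pow] at this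
  have l2 : Real.log c ≤ (Nat.primeCounting W : ℝ) * Real.log N := by
    rw [← Real.log_pow]
    apply Real.log_le_log hcpos'
    exact_mod_cast hup
  have l3 : Real.log N ≤ Real.log m + Real.log n₁ := by
    rw [← Real.log_mul (by positivity) (by positivity)]
    exact Real.log_le_log hN' (by exact_mod_cast hN)
  have l4 : Real.log g ≤ Real.log W := by
    apply Real.log_le_log hgpos
    have : g ≤ W := by omega
    exact_mod_cast this
  push_cast
  have e3 : (n₁ : ℝ) + g - n₁ = g := by ring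
  rw [e3]
  have l5 : (g : ℝ) * (Real.log N - Real.log m - Real.log W) ≤ g * (Real.log n₁ - Real.log g) :=
    mul_le_mul_of_nonneg_left (by linarith) hgpos.le
  linarith

theorem pi_small (ε : ℝ) (hε : 0 < ε) : ∀ᶠ y : ℕ in atTop, (Nat.primeCounting y : ℝ) ≤ ε * y := by
  have h1 := (tendsto_natCast_atTop_atTop (R := ℝ)).eventually
    (Chebyshev.eventually_primeCounting_le (ε := 1) one_pos)
  have h2 : ∀ᶠ y : ℕ in atTop, (Real.log 4 + 1) / ε ≤ Real.log y :=
    (Real.tendsto_log_atTop.comp tendsto_natCast_atTop_atTop).eventually (eventually_ge_atTop _)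
  filter_upwards [h1, h2, eventually_ge_atTop 2] with y h1 h2 h3
  rw [Nat.floor_natCast] at h1
  have hy : (0 : ℝ) ≤ y := Nat.cast_nonneg y
  have hl : 0 < Real.log y := Real.log_pos (by exact_mod_cast h3)
  refine h1.trans ?_
  rw [div_le_iff₀ hl]
  rw [div_le_iff₀ hε] at h2
  nlinarith

theorem gap1 (δ a : ℝ) (hδ : 0 < δ) (ha : 0 < a) (A m : ℕ) (hA : 1 ≤ A) (hm : 1 ≤ m) :
    ∀ᶠ N : ℕ in atTop, ∀ p k n₁ n₂ n₃ n₄ : ℕ, p.Prime → a * √(N : ℝ) ≤ k →
      Real.log k ≤ (1 - δ) * Real.log N → n₁ < n₂ → n₂ ≤ n₃ → n₃ < n₄ → n₄ ≤ N → N ≤ m * n₁ →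
      n₄ ≤ n₁ + A * k → p ^ k ∣ n₁.factorial + 1 → p ^ k ∣ n₂.factorial + 1 →
      p ^ k ∣ n₃.factorial + 1 → p ^ k ∣ n₄.factorial + 1 →
      (k : ℝ) * (Real.log N - Real.log m) +
        (Real.log k - 2) * min ((n₂ : ℝ) - n₁) ((n₄ : ℝ) - n₃) ≤
        max ((n₂ : ℝ) - n₁) ((n₄ : ℝ) - n₃) * Real.log N := by
  have hA' : (0 : ℝ) < A := by exact_mod_cast hA
  obtain ⟨Y, hY⟩ := (eventually_atTop.1 (pi_small (δ / (8 * A)) (by positivity)))
  have h1 : ∀ᶠ N : ℕ in atTop, (2 * Real.log m + 2 * (Real.log m + Real.log A) / δ) ≤ Real.log N :=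
    (Real.tendsto_log_atTop.comp tendsto_natCast_atTop_atTop).eventually (eventually_ge_atTop _)
  have h2 : ∀ᶠ N : ℕ in atTop, ((Y : ℝ) + 2) / a ≤ √(N : ℝ) :=
    (Real.tendsto_sqrt_atTop.comp tendsto_natCast_atTop_atTop).eventually (eventually_ge_atTop _)
  filter_upwards [h1, h2, eventually_ge_atTop 2] with N h1 h2 h3
  intro p k n₁ n₂ n₃ n₄ hp hk1 hk2 h12 h23 h34 hn4 hN hW d1 d2 d3 d4
  have hlm : 0 ≤ Real.log m := Real.log_natCast_nonneg m
  have hlA : 0 ≤ Real.log A := Real.log_natCast_nonneg A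
  have hx : 0 < Real.log N := Real.log_pos (by exact_mod_cast h3)
  have hN1 : 2 * Real.log m ≤ Real.log N := by
    have : 0 ≤ 2 * (Real.log m + Real.log A) / δ := by positivity
    linarith
  have hN2 : 2 * (Real.log m + Real.log A) ≤ δ * Real.log N := by
    have h4 : 2 * (Real.log m + Real.log A) / δ ≤ Real.log N := by linarith
    rw [div_le_iff₀ hδ] at h4
    linarith
  have hkY : (Y : ℝ) + 2 ≤ k := by
    rw [div_le_iff₀ ha] at h2
    linarith
  have hkY' : Y + 2 ≤ k := by exact_mod_cast hkY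
  have hk0 : (0 : ℝ) < k := by
    have : 0 < k := by omega
    exact_mod_cast this
  -- the products are different
  have hne : (n₁ + 1).ascFactorial (n₂ - n₁) ≠ (n₃ + 1).ascFactorial (n₄ - n₃) := by
    intro he
    have h4 := asc_ne_core h12 h23 h34 hn4 hN hW he
    have h5 := hY (A * k) (by nlinarith)
    have g0 := gap0 hp (by omega) h12 d1 d2 hN (by omega)
    have h6 : (k : ℝ) / 2 * Real.log N ≤ ((n₂ : ℝ) - n₁) * Real.log N := by
      have h12' : (k : ℝ) * (Real.log N / 2) ≤ (k : ℝ) * (Real.log N - Real.log m) :=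
        mul_le_mul_of_nonneg_left (by linarith) hk0.le
      linarith
    have h7 : (k : ℝ) / 2 ≤ (n₂ : ℝ) - n₁ := le_of_mul_le_mul_right h6 hx
    have h8 : Real.log ((A * k : ℕ) : ℝ) = Real.log A + Real.log k := by
      push_cast
      rw [Real.log_mul hA'.ne' hk0.ne']
    rw [h8] at h4
    have h9 : (k : ℝ) / 2 * (δ * Real.log N / 2) ≤
        ((n₂ : ℝ) - n₁) * (Real.log N - Real.log m - (Real.log A + Real.log k)) := by
      apply mul_le_mul h7 (by nlinarith) (by positivity) (by linarith)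
    have h10 : (Nat.primeCounting (A * k) : ℝ) * Real.log N ≤
        δ / (8 * A) * (A * k) * Real.log N := by
      push_cast at h5
      exact mul_le_mul_of_nonneg_right h5 hx.le
    have h11 : δ / (8 * A) * (A * k) * Real.log N = δ * k * Real.log N / 8 := by
      field_simp
    have h12 : 0 < δ * k * Real.log N := by positivity
    nlinarith
  rcases le_total (n₂ - n₁) (n₄ - n₃) with hg | hg
  · have h4 := gap1_core hp (by omega) h12 h34 hN (by omega) hn4 (hN.trans (by gcongr; omega))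
      d1 d2 d3 d4 hg hN1 hne
    have h5 : (n₂ : ℝ) - n₁ ≤ (n₄ : ℝ) - n₃ := by
      have : ((n₂ - n₁ : ℕ) : ℝ) ≤ ((n₄ - n₃ : ℕ) : ℝ) := by exact_mod_cast hg
      rwa [Nat.cast_sub h12.le, Nat.cast_sub h34.le] at this
    rw [min_eq_left h5, max_eq_right h5]
    exact h4
  · have h4 := gap1_core hp (by omega) h34 h12 (hN.trans (by gcongr; omega)) hn4 (by omega) hN
      d3 d4 d1 d2 hg hN1 (Ne.symm hne)
    have h5 : (n₄ : ℝ) - n₃ ≤ (n₂ : ℝ) - n₁ := by
      have : ((n₄ - n₃ : ℕ) : ℝ) ≤ ((n₂ - n₁ : ℕ) : ℝ) := by exact_mod_cast hg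
      rwa [Nat.cast_sub h12.le, Nat.cast_sub h34.le] at this
    rw [min_eq_right h5, max_eq_left h5]
    exact h4

end Pool.Agent.Lib.MP_1ccaad_nt
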