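import Mathlib
import Pool.Agent.Lib.MP_1ccaad_nt.Gap

set_option autoImplicit false

namespace Pool.Agent.Lib.MP_1ccaad_nt

open Finset

/-- exponent of `p` in `n! + 1` -/
def av (p n : ℕ) : ℕ := (n.factorial + 1).factorization p

/-- the gcd argument over all primes at once -/
theorem pair_bound {n n' N : ℕ} (hn : 1 ≤ n) (hnn : n < n') (hN : n' ≤ N) (Pr : Finset ℕ) :
    ∑ p ∈ Pr, Real.log p * min (av p n : ℝ) (av p n') ≤ ((n' : ℝ) - n) * Real.log N := by
  set g := Nat.gcd (n.factorial + 1) (n'.factorial + 1) with hg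
  have hg0 : 0 < g := Nat.gcd_pos_of_pos_left _ (Nat.succ_pos _)
  have hfac : ∀ p, min (av p n : ℝ) (av p n') = (g.factorization p : ℝ) := by
    intro p
    rw [hg, Nat.factorization_gcd (Nat.succ_ne_zero _) (Nat.succ_ne_zero _)]
    unfold av
    simp
  have h1 : ∑ p ∈ Pr, Real.log p * min (av p n : ℝ) (av p n') ≤ Real.log g := by
    rw [Real.log_nat_eq_sum_factorization, Finsupp.sum, Nat.support_factorization]
    have h2 : ∑ p ∈ Pr, Real.log p * min (av p n : ℝ) (av p n') =
        ∑ p ∈ Pr.filter (fun p => p ∈ g.primeFactors), (g.factorization p : ℝ) * Real.log p := by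
      rw [Finset.sum_filter]
      apply Finset.sum_congr rfl
      intro p _
      rw [hfac]
      split_ifs with h
      · ring
      · have : g.factorization p = 0 := by
          rw [← Finsupp.notMem_support_iff, Nat.support_factorization]; exact h
        rw [this]; simp
    rw [h2]
    apply Finset.sum_le_sum_of_subset_of_nonneg
    · intro p hp
      exact (mem_filter.1 hp).2
    · intro p _ _
      exact mul_nonneg (Nat.cast_nonneg _) (Real.log_natCast_nonneg p)
  refine h1.trans ?_
  have d1 : g ^ 1 ∣ n.factorial + 1 := by rw [pow_one]; exact Nat.gcd_dvd_left _ _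
  have d2 : g ^ 1 ∣ n'.factorial + 1 := by rw [pow_one]; exact Nat.gcd_dvd_right _ _
  have d3 := pow_dvd_asc hnn d1 d2
  have h4 : (1 : ℤ) < ((n + 1).ascFactorial (n' - n) : ℤ) := by
    have : 1 < (n + 1).ascFactorial (n' - n) := by
      have h5 := Nat.pow_succ_le_ascFactorial (n + 1) (n' - n)
      have h6 : n + 1 ≤ (n + 1) ^ (n' - n) := Nat.le_self_pow (by omega) _
      omega
    exact_mod_cast this
  have h5 := Int.le_of_dvd (by omega) d3
  rw [pow_one] at h5
  have h6 : g ≤ N ^ (n' - n) := by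
    have h7 : (g : ℤ) ≤ ((n + 1).ascFactorial (n' - n) : ℤ) := by omega
    have h8 : g ≤ (n + 1).ascFactorial (n' - n) := by exact_mod_cast h7
    exact h8.trans (asc_le hnn hN)
  have h7 : Real.log g ≤ Real.log ((N : ℝ) ^ (n' - n)) := by
    apply Real.log_le_log (by exact_mod_cast hg0)
    exact_mod_cast h6
  rw [Real.log_pow, Nat.cast_sub hnn.le] at h7
  exact h7

/-- the pairs `n < n'` in `w` -/
def prs (w : Finset ℕ) : Finset (ℕ × ℕ) := (w ×ˢ w).filter (fun q => q.1 < q.2)

theorem sum_min_le (w : Finset ℕ) (a : ℕ → ℝ) (K : ℝ) (hK : 0 ≤ K) (ha : ∀ n, 0 ≤ a n) :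
    ∑ n ∈ w, min (a n) K ≤ K + ∑ q ∈ prs w, min (a q.1) (a q.2) := by
  rcases w.eq_empty_or_nonempty with rfl | hne
  · simp [prs]; exact hK
  · obtain ⟨s, hs, hmax⟩ := Finset.exists_max_image w a hne
    rw [← Finset.add_sum_erase _ _ hs]
    have h1 : ∑ n ∈ w.erase s, min (a n) K ≤
        ∑ n ∈ w.erase s, min (a (min n s)) (a (max n s)) := by
      apply Finset.sum_le_sum
      intro n hn
      have h2 := hmax n (Finset.mem_of_mem_erase hn)
      rcases le_total n s with h | h
      · rw [min_eq_left h, max_eq_right h, min_eq_left h2]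
        exact min_le_left _ _
      · rw [min_eq_right h, max_eq_left h, min_eq_right h2]
        exact min_le_left _ _
    have h2 : ∑ n ∈ w.erase s, min (a (min n s)) (a (max n s)) ≤
        ∑ q ∈ prs w, min (a q.1) (a q.2) := by
      have hinj : Set.InjOn (fun n => (min n s, max n s)) (w.erase s) := by
        intro n hn n' hn' h
        simp only [Prod.mk.injEq] at h
        omega
      have h3 : ∑ q ∈ (w.erase s).image (fun n => (min n s, max n s)), min (a q.1) (a q.2) =
          ∑ n ∈ w.erase s, min (a (min n s)) (a (max n s)) := Finset.sum_image hinj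
      rw [← h3]
      apply Finset.sum_le_sum_of_subset_of_nonneg
      · intro q hq
        obtain ⟨n, hn, rfl⟩ := mem_image.1 hq
        have hns := Finset.ne_of_mem_erase hn
        have hnw := Finset.mem_of_mem_erase hn
        unfold prs
        rw [mem_filter, mem_product]
        refine ⟨⟨?_, ?_⟩, ?_⟩
        · rcases le_total n s with h | h
          · simp only [min_eq_left h]; exact hnw
          · simp only [min_eq_right h]; exact hs
        · rcases le_total n s with h | h
          · simp only [max_eq_right h]; exact hs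
          · simp only [max_eq_left h]; exact hnw
        · simp only
          omega
      · intro q _ _
        exact le_min (ha _) (ha _)
    have h3 : min (a s) K ≤ K := min_le_right _ _
    linarith

theorem low_levels (N H K0 : ℕ) (hN : 1 ≤ N) (hH : 1 ≤ H) (G : Finset ℕ)
    (hG : ∀ n ∈ G, 1 ≤ n ∧ n ≤ N) (Pr : Finset ℕ) (hPr : ∀ p ∈ Pr, p.Prime) :
    ∑ p ∈ Pr, Real.log p * ∑ n ∈ G, min (av p n : ℝ) K0 ≤
      ((N : ℝ) / H + 1) * (K0 * ∑ p ∈ Pr, Real.log p + (H : ℝ) ^ 3 * Real.log N) := by
  have hH0 : (0 : ℝ) < H := by exact_mod_cast hH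
  have hx0 : 0 ≤ Real.log N := Real.log_natCast_nonneg N
  have hlogp : ∀ p ∈ Pr, 0 ≤ Real.log p := fun p _ => Real.log_natCast_nonneg p
  have hθ0 : 0 ≤ ∑ p ∈ Pr, Real.log p := Finset.sum_nonneg hlogp
  -- one window
  have hwin : ∀ j : ℕ, ∑ p ∈ Pr, Real.log p * ∑ n ∈ G.filter (fun n => n / H = j), min (av p n : ℝ) K0
      ≤ K0 * ∑ p ∈ Pr, Real.log p + (H : ℝ) ^ 3 * Real.log N := by
    intro j
    set w := G.filter (fun n => n / H = j) with hw
    have hwm : ∀ n ∈ w, (1 ≤ n ∧ n ≤ N) ∧ j * H ≤ n ∧ n < j * H + H := by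
      intro n hn
      rw [hw, mem_filter] at hn
      refine ⟨hG n hn.1, ?_, ?_⟩
      · rw [← hn.2]; exact Nat.div_mul_le_self n H
      · rw [← hn.2]
        have := Nat.lt_div_mul_add (a := n) (b := H) (by omega)
        exact this
    have h1 : ∑ p ∈ Pr, Real.log p * ∑ n ∈ w, min (av p n : ℝ) K0 ≤
        ∑ p ∈ Pr, Real.log p * (K0 + ∑ q ∈ prs w, min (av p q.1 : ℝ) (av p q.2)) := by
      apply Finset.sum_le_sum
      intro p hp
      apply mul_le_mul_of_nonneg_left _ (hlogp p hp)
      exact sum_min_le w (fun n => (av p n : ℝ)) K0 (Nat.cast_nonneg _) (fun n => Nat.cast_nonneg _)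
    refine h1.trans ?_
    have h2 : ∑ p ∈ Pr, Real.log p * (K0 + ∑ q ∈ prs w, min (av p q.1 : ℝ) (av p q.2)) =
        K0 * ∑ p ∈ Pr, Real.log p +
        ∑ q ∈ prs w, ∑ p ∈ Pr, Real.log p * min (av p q.1 : ℝ) (av p q.2) := by
      simp only [mul_add, Finset.sum_add_distrib, Finset.mul_sum]
      congr 1
      · apply Finset.sum_congr rfl; intro p _; ring
      · rw [Finset.sum_comm]
    rw [h2]
    have h3 : ∑ q ∈ prs w, ∑ p ∈ Pr, Real.log p * min (av p q.1 : ℝ) (av p q.2) ≤
        ∑ q ∈ prs w, (H : ℝ) * Real.log N := by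
      apply Finset.sum_le_sum
      intro q hq
      unfold prs at hq
      rw [mem_filter, mem_product] at hq
      have hq1 := hwm _ hq.1.1
      have hq2 := hwm _ hq.1.2
      refine (pair_bound hq1.1.1 hq.2 hq2.1.2 Pr).trans ?_
      apply mul_le_mul_of_nonneg_right _ hx0
      have h4 : q.2 ≤ q.1 + H := by omega
      have h5 : (q.2 : ℝ) ≤ q.1 + H := by exact_mod_cast h4
      linarith
    have h4 : ∑ q ∈ prs w, (H : ℝ) * Real.log N ≤ (H : ℝ) ^ 3 * Real.log N := by
      rw [Finset.sum_const, nsmul_eq_mul]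
      have hcw : w.card ≤ H := by
        have h5 : w ⊆ Ico (j * H) (j * H + H) := by
          intro n hn
          rw [mem_Ico]
          exact (hwm n hn).2
        have h6 := Finset.card_le_card h5
        rw [Nat.card_Ico, Nat.add_sub_cancel_left] at h6
        exact h6
      have h5 : (prs w).card ≤ H * H := by
        unfold prs
        refine (Finset.card_filter_le _ _).trans ?_
        rw [Finset.card_product]
        exact Nat.mul_le_mul hcw hcw
      have h6 : ((prs w).card : ℝ) ≤ H * H := by exact_mod_cast h5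
      have h7 : ((prs w).card : ℝ) * ((H : ℝ) * Real.log N) ≤ (H * H) * ((H : ℝ) * Real.log N) :=
        mul_le_mul_of_nonneg_right h6 (by positivity)
      have h8 : (H : ℝ) ^ 3 * Real.log N = (H * H) * ((H : ℝ) * Real.log N) := by ring
      rw [h8]; exact h7
    linarith
  -- all windows
  have hsplit : ∀ p, ∑ n ∈ G, min (av p n : ℝ) K0 =
      ∑ j ∈ range (N / H + 1), ∑ n ∈ G.filter (fun n => n / H = j), min (av p n : ℝ) K0 := by
    intro p
    rw [Finset.sum_fiberwise_of_maps_to]
    intro n hn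
    rw [mem_range, Nat.lt_succ_iff]
    exact Nat.div_le_div_right (hG n hn).2
  have h1 : ∑ p ∈ Pr, Real.log p * ∑ n ∈ G, min (av p n : ℝ) K0 =
      ∑ j ∈ range (N / H + 1), ∑ p ∈ Pr, Real.log p *
        ∑ n ∈ G.filter (fun n => n / H = j), min (av p n : ℝ) K0 := by
    rw [Finset.sum_comm]
    apply Finset.sum_congr rfl
    intro p _
    rw [hsplit, Finset.mul_sum]
  rw [h1]
  refine (Finset.sum_le_sum fun j _ => hwin j).trans ?_
  rw [Finset.sum_const, card_range, nsmul_eq_mul]
  apply mul_le_mul_of_nonneg_right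
  · push_cast
    have : ((N / H : ℕ) : ℝ) ≤ (N : ℝ) / H := Nat.cast_div_le
    linarith
  · positivity

end Pool.Agent.Lib.MP_1ccaad_nt
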