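import Mathlib

set_option autoImplicit false

namespace Pool.Agent.Lib.MP_1ccaad_nt

open Finset Filter

/-- packing bound by splitting at the highest element -/
theorem packing (Ψ : ℝ → ℝ) (σ : ℕ → ℝ) (K T : ℕ) (σ0 Lmax : ℝ)
    (hΨ0 : ∀ L, σ0 ≤ L → L ≤ Lmax → 0 ≤ Ψ L)
    (hΨ : ∀ b : ℕ, K < b → b ≤ T → ∀ L1 L2, σ b ≤ L1 → σ b ≤ L2 → L1 + L2 ≤ Lmax →
      (b : ℝ) + Ψ L1 + Ψ L2 ≤ Ψ (L1 + L2))
    (hσ0 : ∀ b : ℕ, K < b → b ≤ T → σ0 ≤ σ b) (hσ00 : 0 ≤ σ0) (n : ℕ) :
    ∀ (Q : Finset ℕ), Q.card = n → ∀ (b : ℕ → ℕ), (∀ s ∈ Q, K < b s ∧ b s ≤ T) →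
      (∀ s ∈ Q, ∀ t ∈ Q, s < t → σ (min (b s) (b t)) ≤ (t : ℝ) - s) →
      ∀ α β : ℝ, (∀ s ∈ Q, σ (b s) ≤ s - α) → (∀ s ∈ Q, σ (b s) ≤ β - s) → β - α ≤ Lmax →
        σ0 ≤ β - α → ∑ s ∈ Q, (b s : ℝ) ≤ Ψ (β - α) := by
  induction n using Nat.strong_induction_on with
  | _ n ih =>
    intro Q hQ b hb hsep α β hα hβ hL hL0
    rcases Q.eq_empty_or_nonempty with rfl | hne
    · simpa using hΨ0 _ hL0 hL
    · obtain ⟨s, hs, hmax⟩ := Finset.exists_max_image Q b hne
      set Q1 := Q.filter (fun t => t < s) with hQ1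
      set Q2 := Q.filter (fun t => s < t) with hQ2
      have hsum : ∑ t ∈ Q, (b t : ℝ) = b s + ∑ t ∈ Q1, (b t : ℝ) + ∑ t ∈ Q2, (b t : ℝ) := by
        have h1 : Q = insert s (Q1 ∪ Q2) := by
          ext t
          simp only [hQ1, hQ2, mem_insert, mem_union, mem_filter]
          constructor
          · intro ht
            rcases lt_trichotomy t s with h | h | h
            · exact Or.inr (Or.inl ⟨ht, h⟩)
            · exact Or.inl h
            · exact Or.inr (Or.inr ⟨ht, h⟩)
          · rintro (rfl | ⟨h, _⟩ | ⟨h, _⟩)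
            · exact hs
            · exact h
            · exact h
        have h2 : s ∉ Q1 ∪ Q2 := by
          simp only [hQ1, hQ2, mem_union, mem_filter, not_or, not_and]
          exact ⟨fun _ => lt_irrefl _, fun _ => lt_irrefl _⟩
        have h3 : Disjoint Q1 Q2 := by
          rw [Finset.disjoint_left]
          intro t h4 h5
          have := (mem_filter.1 h4).2
          have := (mem_filter.1 h5).2
          omega
        conv_lhs => rw [h1]
        rw [Finset.sum_insert h2, Finset.sum_union h3]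
        ring
      have hsub1 : Q1 ⊆ Q.erase s := by
        intro t ht
        rw [hQ1, mem_filter] at ht
        exact mem_erase.2 ⟨ht.2.ne, ht.1⟩
      have hsub2 : Q2 ⊆ Q.erase s := by
        intro t ht
        rw [hQ2, mem_filter] at ht
        exact mem_erase.2 ⟨ht.2.ne', ht.1⟩
      have hce : (Q.erase s).card < n := by
        rw [Finset.card_erase_of_mem hs, hQ]
        have : 0 < n := by rw [← hQ]; exact Finset.card_pos.2 hne
        omega
      have hbs := hb s hs
      have hA1 : σ (b s) ≤ s - α := hα s hs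
      have hA2 : σ (b s) ≤ β - s := hβ s hs
      have hσs : σ0 ≤ σ (b s) := hσ0 _ hbs.1 hbs.2
      have e1 := ih Q1.card (lt_of_le_of_lt (Finset.card_le_card hsub1) hce) Q1 rfl b
        (fun t ht => hb t (mem_filter.1 ht).1)
        (fun t ht r hr => hsep t (mem_filter.1 ht).1 r (mem_filter.1 hr).1) α s
        (fun t ht => hα t (mem_filter.1 ht).1)
        (fun t ht => by
          have h1 := mem_filter.1 ht
          have h2 := hsep t h1.1 s hs h1.2
          rwa [min_eq_left (hmax t h1.1)] at h2)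
        (by linarith) (by linarith)
      have e2 := ih Q2.card (lt_of_le_of_lt (Finset.card_le_card hsub2) hce) Q2 rfl b
        (fun t ht => hb t (mem_filter.1 ht).1)
        (fun t ht r hr => hsep t (mem_filter.1 ht).1 r (mem_filter.1 hr).1) s β
        (fun t ht => by
          have h1 := mem_filter.1 ht
          have h2 := hsep s hs t h1.1 h1.2
          rwa [min_eq_right (hmax t h1.1)] at h2)
        (fun t ht => hβ t (mem_filter.1 ht).1)
        (by linarith) (by linarith)
      have e3 := hΨ (b s) hbs.1 hbs.2 (s - α) (β - s) hA1 hA2 (by linarith)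
      have e4 : (s : ℝ) - α + (β - s) = β - α := by ring
      rw [e4] at e3
      rw [hsum]
      linarith

/-- binary entropy in unnormalised form -/
theorem entropy_ge {L1 L2 : ℝ} (h1 : 0 < L1) (h12 : L1 ≤ L2) :
    L1 * (Real.log ((L1 + L2) / L1) + Real.log 2) ≤
      L1 * Real.log ((L1 + L2) / L1) + L2 * Real.log ((L1 + L2) / L2) := by
  have h2 : 0 < L2 := lt_of_lt_of_le h1 h12
  have hr : 1 ≤ L2 / L1 := by rwa [le_div_iff₀ h1, one_mul]
  have h3 : (2 : ℝ) ≤ (1 + L1 / L2) ^ (L2 / L1) := by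
    have h4 := one_add_mul_self_le_rpow_one_add (s := L1 / L2) (by
      have : 0 < L1 / L2 := by positivity
      linarith) hr
    have h5 : L2 / L1 * (L1 / L2) = 1 := by field_simp
    rw [h5] at h4
    linarith
  have h4 : (L1 + L2) / L2 = 1 + L1 / L2 := by field_simp; ring
  have h5 : Real.log 2 ≤ L2 / L1 * Real.log ((L1 + L2) / L2) := by
    rw [h4, ← Real.log_rpow (by positivity)]
    exact Real.log_le_log (by norm_num) h3
  have h6 : L1 * Real.log 2 ≤ L2 * Real.log ((L1 + L2) / L2) := by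
    have := mul_le_mul_of_nonneg_left h5 h1.le
    have h7 : L1 * (L2 / L1 * Real.log ((L1 + L2) / L2)) = L2 * Real.log ((L1 + L2) / L2) := by
      field_simp
    rwa [h7] at this
  linarith

end Pool.Agent.Lib.MP_1ccaad_nt
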