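import Mathlib
import Pool.Agent.Lib.MP_1ccaad_nt.Packing

set_option autoImplicit false

namespace Pool.Agent.Lib.MP_1ccaad_nt

open Finset Filter

/-- `G(t) = (1 + d) t - t² / (2x)` -/
noncomputable def GG (x d t : ℝ) : ℝ := (1 + d) * t - t ^ 2 / (2 * x)

/-- `Ψ(L) = λ L (G(log L) - G(s))`, `λ = (1 + e) / (2 log 2)` -/
noncomputable def PP (x d e s L : ℝ) : ℝ :=
  (1 + e) / (2 * Real.log 2) * (L * (GG x d (Real.log L) - GG x d s))

theorem GG_sub {x d ℓ s : ℝ} (hx : 0 < x) (hs : s ≤ ℓ) :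
    (ℓ - s) * (1 + d - ℓ / x) ≤ GG x d ℓ - GG x d s := by
  unfold GG
  have h : (1 + d) * ℓ - ℓ ^ 2 / (2 * x) - ((1 + d) * s - s ^ 2 / (2 * x)) -
      (ℓ - s) * (1 + d - ℓ / x) = (ℓ - s) ^ 2 / (2 * x) := by
    field_simp
    ring
  have h2 : 0 ≤ (ℓ - s) ^ 2 / (2 * x) := by positivity
  linarith

theorem PP_nonneg {x d e s L : ℝ} (hx : 0 < x) (he : 0 ≤ e) (hd : 0 ≤ d) (hL : 0 < L)
    (hs : s ≤ Real.log L) (hmax : Real.log L ≤ (1 + d / 2) * x) : 0 ≤ PP x d e s L := by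
  unfold PP
  have h1 := GG_sub (d := d) hx hs
  have h2 : 0 ≤ 1 + d - Real.log L / x := by
    have : Real.log L / x ≤ 1 + d / 2 := by rwa [div_le_iff₀ hx]
    linarith
  have h3 : 0 ≤ (Real.log L - s) * (1 + d - Real.log L / x) :=
    mul_nonneg (by linarith) h2
  have hl2 : 0 < Real.log 2 := Real.log_pos (by norm_num)
  have h4 : 0 ≤ GG x d (Real.log L) - GG x d s := by linarith
  positivity

theorem PP_super {x d e s L1 L2 bb : ℝ} (hx : 0 < x) (he : 0 ≤ e) (hd : 0 < d) (h1 : 0 < L1)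
    (h12 : L1 ≤ L2) (hmax : Real.log (L1 + L2) ≤ (1 + d / 2) * x) (hxd : 4 * Real.log 2 ≤ d * x)
    (hb : bb ≤ (1 + e) * L1 * (1 + d - (Real.log L1 + Real.log 2) / x)) :
    bb + PP x d e s L1 + PP x d e s L2 ≤ PP x d e s (L1 + L2) := by
  have hl2 : 0 < Real.log 2 := Real.log_pos (by norm_num)
  have h2 : 0 < L2 := lt_of_lt_of_le h1 h12
  set ℓ := Real.log (L1 + L2) with hℓ
  set ℓ1 := Real.log L1 with hℓ1
  set ℓ2 := Real.log L2 with hℓ2
  have hle1 : ℓ1 ≤ ℓ := Real.log_le_log h1 (by linarith)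
  have hle2 : ℓ2 ≤ ℓ := Real.log_le_log h2 (by linarith)
  have g1 := GG_sub (d := d) hx hle1
  have g2 := GG_sub (d := d) hx hle2
  set v := 1 + d - ℓ / x with hv
  have hv2 : d / 2 ≤ v := by
    have : ℓ / x ≤ 1 + d / 2 := by rwa [div_le_iff₀ hx]
    rw [hv]; linarith
  have hent := entropy_ge h1 h12
  rw [Real.log_div (by positivity) (by positivity), Real.log_div (by positivity) (by positivity),
    ← hℓ, ← hℓ1, ← hℓ2] at hent
  have hy : Real.log 2 ≤ ℓ - ℓ1 := by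
    have h3 : 2 * L1 ≤ L1 + L2 := by linarith
    have h4 := Real.log_le_log (by positivity) h3
    rw [Real.log_mul (by norm_num) h1.ne'] at h4
    linarith
  -- the main inequality
  have hmain : L1 * (2 * Real.log 2) * (1 + d - (ℓ1 + Real.log 2) / x) ≤
      L1 * (ℓ - ℓ1 + Real.log 2) * v := by
    have e1 : 1 + d - (ℓ1 + Real.log 2) / x = v + (ℓ - ℓ1 - Real.log 2) / x := by
      rw [hv]; field_simp; ring
    rw [e1]
    have h5 : (2 * Real.log 2) * ((ℓ - ℓ1 - Real.log 2) / x) ≤ (ℓ - ℓ1 - Real.log 2) * v := by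
      have h6 : 2 * Real.log 2 / x ≤ v := by
        rw [div_le_iff₀ hx]
        have : d / 2 * x ≤ v * x := mul_le_mul_of_nonneg_right hv2 hx.le
        linarith
      have h7 := mul_le_mul_of_nonneg_left h6 (sub_nonneg.2 hy)
      have h8 : (2 * Real.log 2) * ((ℓ - ℓ1 - Real.log 2) / x) =
        (ℓ - ℓ1 - Real.log 2) * (2 * Real.log 2 / x) := by ring
      rw [h8]; exact h7
    have h9 : (2 * Real.log 2) * (v + (ℓ - ℓ1 - Real.log 2) / x) ≤ (ℓ - ℓ1 + Real.log 2) * v := by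
      have : (ℓ - ℓ1 + Real.log 2) * v = (2 * Real.log 2) * v + (ℓ - ℓ1 - Real.log 2) * v := by ring
      rw [this, mul_add]; linarith
    have := mul_le_mul_of_nonneg_left h9 h1.le
    linarith
  have hsum : L1 * (ℓ - ℓ1 + Real.log 2) * v ≤
      (L1 + L2) * GG x d ℓ - L1 * GG x d ℓ1 - L2 * GG x d ℓ2 := by
    have h10 : L1 * (ℓ - ℓ1 + Real.log 2) * v ≤ (L1 * (ℓ - ℓ1) + L2 * (ℓ - ℓ2)) * v :=
      mul_le_mul_of_nonneg_right hent (by linarith)
    have h11 := mul_le_mul_of_nonneg_left g1 h1.le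
    have h12 := mul_le_mul_of_nonneg_left g2 h2.le
    have h13 : (L1 * (ℓ - ℓ1) + L2 * (ℓ - ℓ2)) * v =
      L1 * ((ℓ - ℓ1) * v) + L2 * ((ℓ - ℓ2) * v) := by ring
    rw [h13] at h10
    linarith
  have hfin : bb ≤ (1 + e) / (2 * Real.log 2) *
      ((L1 + L2) * GG x d ℓ - L1 * GG x d ℓ1 - L2 * GG x d ℓ2) := by
    have h14 := hmain.trans hsum
    have h15 : 0 ≤ (1 + e) / (2 * Real.log 2) := by positivity
    have h16 := mul_le_mul_of_nonneg_left h14 h15
    have h17 : (1 + e) / (2 * Real.log 2) * (L1 * (2 * Real.log 2) *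
        (1 + d - (ℓ1 + Real.log 2) / x)) = (1 + e) * L1 * (1 + d - (ℓ1 + Real.log 2) / x) := by
      field_simp
    rw [h17] at h16
    linarith
  unfold PP
  rw [← hℓ, ← hℓ1, ← hℓ2]
  have h18 : (1 + e) / (2 * Real.log 2) * ((L1 + L2) * (GG x d ℓ - GG x d s)) =
      (1 + e) / (2 * Real.log 2) * ((L1 + L2) * GG x d ℓ - L1 * GG x d ℓ1 - L2 * GG x d ℓ2) +
      (1 + e) / (2 * Real.log 2) * (L1 * (GG x d ℓ1 - GG x d s)) +
      (1 + e) / (2 * Real.log 2) * (L2 * (GG x d ℓ2 - GG x d s)) := by ring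
  rw [h18]
  linarith

theorem PP_le {x d e s L c : ℝ} (hx : 0 < x) (he : 0 ≤ e) (hd : 0 ≤ d) (hL : 0 < L)
    (hc0 : 0 ≤ c) (hcx : c ≤ x) (hs : x / 2 - c ≤ s) (hs2 : s ≤ x) (hls : Real.log L - s ≤ x) :
    PP x d e s L ≤ (1 + e) / (2 * Real.log 2) * (L * (x / 8 + c + d * x)) := by
  have hl2 : 0 < Real.log 2 := Real.log_pos (by norm_num)
  unfold PP
  have h1 : GG x d (Real.log L) - GG x d s ≤ x / 8 + c + d * x := by
    unfold GG
    set ℓ := Real.log L
    have h2 : ℓ - ℓ ^ 2 / (2 * x) ≤ x / 2 := by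
      have : x / 2 - (ℓ - ℓ ^ 2 / (2 * x)) = (ℓ - x) ^ 2 / (2 * x) := by field_simp; ring
      have h3 : 0 ≤ (ℓ - x) ^ 2 / (2 * x) := by positivity
      linarith
    have h4 : 3 * x / 8 - c ≤ s - s ^ 2 / (2 * x) := by
      have h5 : s - s ^ 2 / (2 * x) = x / 2 - (x - s) ^ 2 / (2 * x) := by field_simp; ring
      have h6 : (x - s) ^ 2 / (2 * x) ≤ (x / 2 + c) ^ 2 / (2 * x) := by
        apply div_le_div_of_nonneg_right _ (by positivity)
        apply pow_le_pow_left₀ (by linarith)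
        linarith
      have h7 : (x / 2 + c) ^ 2 / (2 * x) ≤ x / 8 + c := by
        rw [div_le_iff₀ (by positivity)]
        nlinarith
      rw [h5]
      linarith
    have h8 : d * (ℓ - s) ≤ d * x := mul_le_mul_of_nonneg_left hls hd
    have h9 : (1 + d) * ℓ - ℓ ^ 2 / (2 * x) - ((1 + d) * s - s ^ 2 / (2 * x)) =
      (ℓ - ℓ ^ 2 / (2 * x)) - (s - s ^ 2 / (2 * x)) + d * (ℓ - s) := by ring
    rw [h9]
    linarith
  gcongr

/-- separation at level `b` -/
noncomputable def sg (x lm : ℝ) (R b : ℕ) : ℝ :=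
  (b : ℝ) * ((x - lm) / x) * ∑ i ∈ range R, ((Real.log b - 2) / x) ^ i

/-- a level is at most `(1+e) L (1 + d - log L / x)` -/
theorem level_le {x lm δ e d L1 : ℝ} {R b : ℕ} (hx : 0 < x) (hlm : 0 ≤ lm) (hb : 1 ≤ b)
    (hb2 : 2 ≤ Real.log b) (hb3 : Real.log b ≤ (1 - δ) * x) (hδ : 0 < δ) (he : 0 ≤ e) (hd : 0 < d)
    (hR : 1 ≤ (1 + e) * ((x - lm) / x) * (1 - (1 - δ) ^ R)) (hL : 0 < L1)
    (hσ : sg x lm R b ≤ L1) (hmax : Real.log L1 + Real.log 2 ≤ (1 + d / 2) * x)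
    (hxd : 2 + Real.log 2 - Real.log (d / 2) ≤ d * x) :
    (b : ℝ) ≤ (1 + e) * L1 * (1 + d - (Real.log L1 + Real.log 2) / x) := by
  have hb0 : (0 : ℝ) < b := by exact_mod_cast hb
  set u := (Real.log b - 2) / x with hu
  have hu0 : 0 ≤ u := div_nonneg (by linarith) hx.le
  have hu1 : u ≤ 1 - δ := by
    rw [hu, div_le_iff₀ hx]; linarith
  have hur : u ^ R ≤ (1 - δ) ^ R := pow_le_pow_left₀ hu0 hu1 R
  have hgeo : (∑ i ∈ range R, u ^ i) * (1 - u) = 1 - u ^ R := geom_sum_mul_neg u R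
  have hκ : 0 < (x - lm) / x := by
    by_contra hc
    push Not at hc
    have h1 : (1 + e) * ((x - lm) / x) ≤ 0 := mul_nonpos_of_nonneg_of_nonpos (by linarith) hc
    have h2 : 0 ≤ 1 - (1 - δ) ^ R := by
      have : (1 - δ) ^ R ≤ 1 := pow_le_one₀ (by linarith) (by linarith)
      linarith
    have := mul_nonpos_of_nonpos_of_nonneg h1 h2
    linarith
  -- `b ≤ (1+e) (1-u) σ_b`
  have h1 : (b : ℝ) ≤ (1 + e) * (1 - u) * sg x lm R b := by
    have h2 : (1 + e) * (1 - u) * sg x lm R b =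
        b * ((1 + e) * ((x - lm) / x) * ((∑ i ∈ range R, u ^ i) * (1 - u))) := by
      unfold sg; rw [← hu]; ring
    rw [h2, hgeo]
    have h3 : 1 ≤ (1 + e) * ((x - lm) / x) * (1 - u ^ R) := by
      refine hR.trans ?_
      apply mul_le_mul_of_nonneg_left (by linarith)
      have : 0 ≤ 1 + e := by linarith
      positivity
    calc (b : ℝ) = b * 1 := by ring
      _ ≤ _ := mul_le_mul_of_nonneg_left h3 hb0.le
  have h1u : 0 ≤ 1 - u := by linarith
  have h2 : (b : ℝ) ≤ (1 + e) * (1 - u) * L1 := by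
    refine h1.trans ?_
    apply mul_le_mul_of_nonneg_left hσ
    have : 0 ≤ 1 + e := by linarith
    positivity
  by_cases hc : (b : ℝ) ≤ d / 2 * L1
  · have hq : d / 2 ≤ 1 + d - (Real.log L1 + Real.log 2) / x := by
      have : (Real.log L1 + Real.log 2) / x ≤ 1 + d / 2 := by rwa [div_le_iff₀ hx]
      linarith
    calc (b : ℝ) ≤ d / 2 * L1 := hc
      _ ≤ (1 + d - (Real.log L1 + Real.log 2) / x) * L1 := mul_le_mul_of_nonneg_right hq hL.le
      _ ≤ (1 + e) * ((1 + d - (Real.log L1 + Real.log 2) / x) * L1) := by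
          apply le_mul_of_one_le_left _ (by linarith)
          apply mul_nonneg _ hL.le
          linarith
      _ = _ := by ring
  · push Not at hc
    have h3 : Real.log (d / 2) + Real.log L1 ≤ Real.log b := by
      rw [← Real.log_mul (by positivity) (by positivity)]
      exact Real.log_le_log (by positivity) hc.le
    have h4 : 1 - u ≤ 1 + d - (Real.log L1 + Real.log 2) / x := by
      have h5 : (Real.log L1 + Real.log 2) / x - u ≤ d := by
        rw [hu, ← sub_div, div_le_iff₀ hx]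
        linarith
      linarith
    calc (b : ℝ) ≤ (1 + e) * (1 - u) * L1 := h2
      _ = (1 + e) * L1 * (1 - u) := by ring
      _ ≤ _ := by
        apply mul_le_mul_of_nonneg_left h4
        have : 0 ≤ 1 + e := by linarith
        positivity

end Pool.Agent.Lib.MP_1ccaad_nt
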