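import Mathlib

set_option autoImplicit false

namespace Pool.Agent.Lib.MP_1ccaad_nt

open Finset Filter

/-- predecessor in `S` -/
def prd (S : Finset ℕ) (s : ℕ) : ℕ := (S.filter (fun t => t < s)).sup id

theorem prd_spec {S : Finset ℕ} {s t : ℕ} (ht : t ∈ S) (hts : t < s) :
    prd S s ∈ S ∧ prd S s < s ∧ t ≤ prd S s := by
  have hne : (S.filter (fun t => t < s)).Nonempty := ⟨t, by simp [ht, hts]⟩
  obtain ⟨r, hr, hre⟩ := Finset.exists_mem_eq_sup _ hne id
  have h1 : prd S s = r := hre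
  have h2 := (mem_filter.1 hr)
  refine ⟨by rw [h1]; exact h2.1, by rw [h1]; exact h2.2, ?_⟩
  exact Finset.le_sup (f := id) (by simp [ht, hts] : t ∈ S.filter (fun t => t < s))

/-- the elements of `S` with a left neighbour at distance `< σ` -/
noncomputable def shortL (S : Finset ℕ) (σ : ℝ) : Finset ℕ :=
  S.filter (fun s => prd S s ∈ S ∧ prd S s < s ∧ (s : ℝ) - prd S s < σ)

theorem mem_shortL {S : Finset ℕ} {σ : ℝ} {s : ℕ} :
    s ∈ shortL S σ ↔ s ∈ S ∧ prd S s ∈ S ∧ prd S s < s ∧ (s : ℝ) - prd S s < σ := by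
  unfold shortL
  rw [mem_filter]

theorem gap_chain (S : Finset ℕ) (κ u W : ℝ) (hu : 0 ≤ u)
    (h0 : ∀ s ∈ S, ∀ t ∈ S, s < t → κ ≤ (t : ℝ) - s)
    (h1 : ∀ a ∈ S, ∀ b ∈ S, ∀ c ∈ S, ∀ d ∈ S, a < b → b ≤ c → c < d → (d : ℝ) - a ≤ W →
      κ + u * min ((b : ℝ) - a) ((d : ℝ) - c) ≤ max ((b : ℝ) - a) ((d : ℝ) - c)) (r : ℕ) :
    ∀ F : Finset ℕ, F ⊆ S → F.Nonempty → r ≤ F.card →
      (∀ s ∈ F, prd S s ∈ S ∧ prd S s < s) →
      (∀ s ∈ F, ∀ t ∈ F, s < t → (t : ℝ) - prd S s ≤ W) →
      ∃ s ∈ F, κ * ∑ i ∈ range r, u ^ i ≤ (s : ℝ) - prd S s := by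
  induction r with
  | zero =>
    intro F _ hne _ hp _
    obtain ⟨s, hs⟩ := hne
    refine ⟨s, hs, ?_⟩
    have := (hp s hs).2
    have h2 : (prd S s : ℝ) ≤ s := by exact_mod_cast this.le
    simp
    linarith
  | succ r ih =>
    intro F hFS hne hr hp hW
    obtain ⟨s, hs, hmax⟩ := Finset.exists_max_image F (fun s => (s : ℝ) - prd S s) hne
    refine ⟨s, hs, ?_⟩
    rcases Nat.eq_zero_or_pos r with rfl | hr0
    · simp only [zero_add, range_one, sum_singleton, pow_zero, mul_one]
      exact h0 _ (hp s hs).1 _ (hFS hs) (hp s hs).2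
    · have hc : r ≤ (F.erase s).card := by
        rw [Finset.card_erase_of_mem hs]; omega
      obtain ⟨t, ht, hgt⟩ := ih (F.erase s) ((Finset.erase_subset _ _).trans hFS)
        (Finset.card_pos.1 (by omega)) hc
        (fun t ht => hp t (Finset.mem_of_mem_erase ht))
        (fun a ha b hb => hW a (Finset.mem_of_mem_erase ha) b (Finset.mem_of_mem_erase hb))
      have htF := Finset.mem_of_mem_erase ht
      have hne' : t ≠ s := Finset.ne_of_mem_erase ht
      have hts := hmax t htF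
      have key : κ + u * ((t : ℝ) - prd S t) ≤ (s : ℝ) - prd S s := by
        rcases lt_or_gt_of_ne hne' with h | h
        · have h2 := prd_spec (hFS htF) h
          have := h1 _ (hp t htF).1 _ (hFS htF) _ (hp s hs).1 _ (hFS hs) (hp t htF).2 h2.2.2
            (hp s hs).2 (hW t htF s hs h)
          rwa [min_eq_left hts, max_eq_right hts] at this
        · have h2 := prd_spec (hFS hs) h
          have := h1 _ (hp s hs).1 _ (hFS hs) _ (hp t htF).1 _ (hFS htF) (hp s hs).2 h2.2.2
            (hp t htF).2 (hW s hs t htF h)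
          rwa [min_eq_right hts, max_eq_left hts] at this
      rw [geom_sum_succ]
      have h3 := mul_le_mul_of_nonneg_left hgt hu
      have h4 : κ * (u * ∑ i ∈ range r, u ^ i + 1) = κ + u * (κ * ∑ i ∈ range r, u ^ i) := by ring
      rw [h4]
      linarith

/-- number of short gaps, all windows together -/
theorem card_shortL (S : Finset ℕ) (κ u w σ lo hi : ℝ) (R : ℕ) (hu : 0 ≤ u) (hw : 0 < w)
    (h0 : ∀ s ∈ S, ∀ t ∈ S, s < t → κ ≤ (t : ℝ) - s)
    (h1 : ∀ a ∈ S, ∀ b ∈ S, ∀ c ∈ S, ∀ d ∈ S, a < b → b ≤ c → c < d → (d : ℝ) - a ≤ 2 * w →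
      κ + u * min ((b : ℝ) - a) ((d : ℝ) - c) ≤ max ((b : ℝ) - a) ((d : ℝ) - c))
    (hσ : σ = κ * ∑ i ∈ range R, u ^ i) (hσw : σ ≤ w) (hlh : lo ≤ hi)
    (hS : ∀ s ∈ S, lo ≤ (s : ℝ) ∧ (s : ℝ) ≤ hi) :
    ((shortL S σ).card : ℝ) ≤ R * ((hi - lo) / w + 1) := by
  set f : ℕ → ℕ := fun s => ⌊((s : ℝ) - lo) / w⌋₊ with hf
  have hfib : ∀ a ∈ (shortL S σ).image f, ((shortL S σ).filter (fun s => f s = a)).card ≤ R := by
    intro a _
    by_contra hc
    push Not at hc
    set F := (shortL S σ).filter (fun s => f s = a) with hF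
    have hFS : F ⊆ S := by
      intro s hs
      exact (mem_shortL.1 (mem_filter.1 hs).1).1
    have hloc : ∀ s ∈ F, (a : ℝ) * w ≤ (s : ℝ) - lo ∧ (s : ℝ) - lo < ((a : ℝ) + 1) * w := by
      intro s hs
      have h2 := (mem_filter.1 hs).2
      have h3 : 0 ≤ ((s : ℝ) - lo) / w := div_nonneg (by linarith [(hS s (hFS hs)).1]) hw.le
      have h4 := (Nat.floor_eq_iff h3).1 h2
      constructor
      · have := h4.1
        rwa [le_div_iff₀ hw] at this
      · have := h4.2
        rwa [div_lt_iff₀ hw] at this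
    obtain ⟨s, hs, hgap⟩ := gap_chain S κ u (2 * w) hu h0 h1 R F hFS
      (Finset.card_pos.1 (by omega)) (by omega)
      (fun s hs => ⟨(mem_shortL.1 (mem_filter.1 hs).1).2.1, (mem_shortL.1 (mem_filter.1 hs).1).2.2.1⟩)
      (fun s hs t ht hst => by
        have h2 := (mem_shortL.1 (mem_filter.1 hs).1).2.2.2
        have h3 := hloc s hs
        have h4 := hloc t ht
        nlinarith)
    have h2 := (mem_shortL.1 (mem_filter.1 hs).1).2.2.2
    rw [← hσ] at hgap
    linarith
  have h2 := Finset.card_le_mul_card_image (shortL S σ) R hfib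
  have h3 : (shortL S σ).image f ⊆ range (⌊(hi - lo) / w⌋₊ + 1) := by
    intro a ha
    obtain ⟨s, hs, rfl⟩ := mem_image.1 ha
    rw [mem_range, Nat.lt_succ_iff]
    apply Nat.floor_le_floor
    have := (hS s (mem_shortL.1 hs).1).2
    gcongr
  have h4 := Finset.card_le_card h3
  rw [card_range] at h4
  have h5 : ((shortL S σ).card : ℝ) ≤ R * ((shortL S σ).image f).card := by exact_mod_cast h2
  have h6 : (((shortL S σ).image f).card : ℝ) ≤ (⌊(hi - lo) / w⌋₊ : ℝ) + 1 := by exact_mod_cast h4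
  have h7 : (⌊(hi - lo) / w⌋₊ : ℝ) ≤ (hi - lo) / w :=
    Nat.floor_le (div_nonneg (by linarith) hw.le)
  calc ((shortL S σ).card : ℝ) ≤ R * ((shortL S σ).image f).card := h5
    _ ≤ R * ((hi - lo) / w + 1) := by
      apply mul_le_mul_of_nonneg_left (by linarith) (Nat.cast_nonneg R)

/-- a maximal separated set between `R0` and `S` -/
theorem exists_maximal_sep (S R0 : Finset ℕ) (σ : ℝ) (h : R0 ⊆ S)
    (hsep : ∀ s ∈ R0, ∀ t ∈ R0, s < t → σ ≤ (t : ℝ) - s) :
    ∃ R1, R0 ⊆ R1 ∧ R1 ⊆ S ∧ (∀ s ∈ R1, ∀ t ∈ R1, s < t → σ ≤ (t : ℝ) - s) ∧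
      ∀ s ∈ S, s ∉ R1 → ∃ r ∈ R1, |(s : ℝ) - r| < σ := by
  classical
  set P : Finset (Finset ℕ) := S.powerset.filter (fun Q => R0 ⊆ Q ∧
    ∀ s ∈ Q, ∀ t ∈ Q, s < t → σ ≤ (t : ℝ) - s) with hP
  have hne : P.Nonempty := ⟨R0, by
    rw [hP, mem_filter, mem_powerset]
    exact ⟨h, Subset.refl _, hsep⟩⟩
  obtain ⟨Q, hQ, hmax⟩ := Finset.exists_max_image P card hne
  rw [hP, mem_filter, mem_powerset] at hQ
  obtain ⟨hQS, hRQ, hQsep⟩ := hQ
  refine ⟨Q, hRQ, hQS, hQsep, ?_⟩
  intro s hs hsQ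
  by_contra hc
  push Not at hc
  have h1 : insert s Q ∈ P := by
    rw [hP, mem_filter, mem_powerset]
    refine ⟨Finset.insert_subset hs hQS, hRQ.trans (Finset.subset_insert _ _), ?_⟩
    intro a ha b hb hab
    rcases mem_insert.1 ha with rfl | ha'
    · rcases mem_insert.1 hb with rfl | hb'
      · exact absurd hab (lt_irrefl _)
      · have h2 := hc b hb'
        have h3 : (a : ℝ) ≤ b := by exact_mod_cast hab.le
        rw [abs_of_nonpos (by linarith)] at h2
        linarith
    · rcases mem_insert.1 hb with rfl | hb'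
      · have h2 := hc a ha'
        have h3 : (a : ℝ) ≤ b := by exact_mod_cast hab.le
        rw [abs_of_nonneg (by linarith)] at h2
        exact h2
      · exact hQsep a ha' b hb' hab
  have h2 := hmax _ h1
  rw [Finset.card_insert_of_notMem hsQ] at h2
  omega

/-- the elements left out are at most twice the short gaps -/
theorem card_sdiff_le (S R1 : Finset ℕ) (σ : ℝ) (hR : R1 ⊆ S)
    (hmax : ∀ s ∈ S, s ∉ R1 → ∃ r ∈ R1, |(s : ℝ) - r| < σ) :
    (S \ R1).card ≤ 2 * (shortL S σ).card := by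
  classical
  -- elements with a right neighbour at distance `< σ`
  set B := (S \ R1).filter (fun s => s ∉ shortL S σ) with hB
  have hsplit : S \ R1 ⊆ shortL S σ ∪ B := by
    intro s hs
    by_cases h : s ∈ shortL S σ
    · exact mem_union_left _ h
    · exact mem_union_right _ (by rw [hB, mem_filter]; exact ⟨hs, h⟩)
  have hBcard : B.card ≤ (shortL S σ).card := by
    -- successor map
    set nx : ℕ → ℕ := fun s => ((shortL S σ).filter (fun t => prd S t = s)).sup id with hnx
    have hkey : ∀ s ∈ B, ∃ t ∈ shortL S σ, prd S t = s := by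
      intro s hs
      rw [hB, mem_filter, Finset.mem_sdiff] at hs
      obtain ⟨⟨hsS, hsR⟩, hns⟩ := hs
      obtain ⟨r, hr, hd⟩ := hmax s hsS hsR
      have hrS := hR hr
      have hne : r ≠ s := by rintro rfl; exact hsR hr
      rcases lt_or_gt_of_ne hne with h | h
      · exfalso
        apply hns
        rw [mem_shortL]
        have h2 := prd_spec hrS h
        refine ⟨hsS, h2.1, h2.2.1, ?_⟩
        have h3 : (r : ℝ) ≤ prd S s := by exact_mod_cast h2.2.2
        have h4 := (abs_lt.1 hd).2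
        linarith
      · -- the successor of `s`
        have hne : (S.filter (fun t => s < t)).Nonempty := ⟨r, by simp [hrS, h]⟩
        set t := (S.filter (fun t => s < t)).min' hne with ht
        have ht1 := Finset.min'_mem _ hne
        rw [← ht, mem_filter] at ht1
        have ht2 : t ≤ r := Finset.min'_le _ _ (by simp [hrS, h])
        have h5 := prd_spec hsS ht1.2
        have h6 : prd S t = s := by
          by_contra hc
          have h7 : s < prd S t := lt_of_le_of_ne h5.2.2 (Ne.symm hc)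
          have h8 : t ≤ prd S t := Finset.min'_le _ _ (by simp [h5.1, h7])
          omega
        refine ⟨t, ?_, h6⟩
        rw [mem_shortL, h6]
        refine ⟨ht1.1, hsS, ht1.2, ?_⟩
        have h3 : (t : ℝ) ≤ r := by exact_mod_cast ht2
        have h4 := (abs_lt.1 hd).1
        linarith
    have : B ⊆ (shortL S σ).image (prd S) := by
      intro s hs
      obtain ⟨t, ht, hts⟩ := hkey s hs
      exact mem_image.2 ⟨t, ht, hts⟩
    exact (Finset.card_le_card this).trans Finset.card_image_le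
  calc (S \ R1).card ≤ (shortL S σ ∪ B).card := Finset.card_le_card hsplit
    _ ≤ (shortL S σ).card + B.card := Finset.card_union_le _ _
    _ ≤ 2 * (shortL S σ).card := by omega

/-- nested separated sets -/
theorem nested (S : ℕ → Finset ℕ) (hS : ∀ k, S (k + 1) ⊆ S k) (σ : ℕ → ℝ) (K T : ℕ) (hKT : K ≤ T)
    (hσ : ∀ k, K < k → k < T → σ k ≤ σ (k + 1)) :
    ∃ Q : ℕ → Finset ℕ, (∀ k, Q k ⊆ S k) ∧ (∀ k, K < k → Q (k + 1) ⊆ Q k) ∧
      (∀ k, T < k → Q k = ∅) ∧
      (∀ k, K < k → k ≤ T → ∀ s ∈ Q k, ∀ t ∈ Q k, s < t → σ k ≤ (t : ℝ) - s) ∧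
      (∀ k, K < k → k ≤ T → (S k \ Q k).card ≤ 2 * (shortL (S k) (σ k)).card) := by
  classical
  obtain ⟨d, rfl⟩ : ∃ d, T = K + d := ⟨T - K, by omega⟩
  clear hKT
  induction d generalizing K with
  | zero =>
    refine ⟨fun _ => ∅, fun _ => empty_subset _, fun _ _ => Subset.refl _, fun _ _ => rfl,
      fun k hk hk2 => by omega, fun k hk hk2 => by omega⟩
  | succ d ih =>
    have hT : K + (d + 1) = K + 1 + d := by omega
    rw [hT] at hσ ⊢
    obtain ⟨Q, q1, q2, q3, q4, q5⟩ := ih (K + 1) (fun k hk hk2 => hσ k (by omega) hk2)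
    have hsep : ∀ s ∈ Q (K + 2), ∀ t ∈ Q (K + 2), s < t → σ (K + 1) ≤ (t : ℝ) - s := by
      intro s hs t ht hst
      by_cases h : K + 2 ≤ K + 1 + d
      · exact (hσ (K + 1) (by omega) (by omega)).trans (q4 (K + 2) (by omega) h s hs t ht hst)
      · rw [q3 (K + 2) (by omega)] at hs
        simp at hs
    obtain ⟨R1, r1, r2, r3, r4⟩ := exists_maximal_sep (S (K + 1)) (Q (K + 2)) (σ (K + 1))
      ((q1 (K + 2)).trans (hS (K + 1))) hsep
    refine ⟨fun k => if k = K + 1 then R1 else Q k, ?_, ?_, ?_, ?_, ?_⟩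
    · intro k
      by_cases h : k = K + 1
      · subst h; simpa using r2
      · simp only [h, if_false]; exact q1 k
    · intro k hk
      by_cases h : k = K + 1
      · subst h
        simpa using r1
      · have h2 : ¬ k + 1 = K + 1 := by omega
        simp only [h, h2, if_false]
        exact q2 k (by omega)
    · intro k hk
      have h : ¬ k = K + 1 := by omega
      simp only [h, if_false]
      exact q3 k hk
    · intro k hk hk2
      by_cases h : k = K + 1
      · subst h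
        simpa using r3
      · simp only [h, if_false]
        exact q4 k (by omega) hk2
    · intro k hk hk2
      by_cases h : k = K + 1
      · subst h
        simp only [if_true]
        exact card_sdiff_le _ _ _ r2 r4
      · simp only [h, if_false]
        exact q5 k (by omega) hk2

end Pool.Agent.Lib.MP_1ccaad_nt
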