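import Mathlib
import Pool.Agent.Lib.MP_1ccaad_nt.Psi
import Pool.Agent.Lib.MP_1ccaad_nt.Short
import Pool.Agent.Lib.MP_1ccaad_nt.GapB
import Pool.Agent.Lib.MP_1ccaad_nt.Low

set_option autoImplicit false

namespace Pool.Agent.Lib.MP_1ccaad_nt

open Finset Filter

theorem pow_dvd_iff_le_av {p n k : ℕ} (hp : p.Prime) : p ^ k ∣ n.factorial + 1 ↔ k ≤ av p n :=
  hp.pow_dvd_iff_le_factorization (Nat.succ_ne_zero _)

theorem av_le {p n : ℕ} (hp : p.Prime) (hn : 1 ≤ n) : av p n ≤ n := by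
  rcases Nat.eq_zero_or_pos (av p n) with h | h
  · omega
  · have h1 : p ^ av p n ∣ n.factorial + 1 := (pow_dvd_iff_le_av hp).2 le_rfl
    have h2 := lt_of_dvd hp h h1
    have h3 := Nat.le_of_dvd (Nat.succ_pos _) h1
    have h4 : n.factorial + 1 ≤ (n + 1) ^ n := by
      have h5 := Nat.factorial_le_pow n
      have h6 : n ^ n < (n + 1) ^ n := Nat.pow_lt_pow_left (Nat.lt_succ_self n) (by omega)
      omega
    have h5 : (n + 1) ^ av p n ≤ (n + 1) ^ n :=
      ((Nat.pow_le_pow_left h2 _).trans h3).trans h4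
    exact (Nat.pow_le_pow_iff_right (by omega)).1 h5

theorem sum_levels (p K B : ℕ) (hp : p.Prime) (G : Finset ℕ)
    (hB : ∀ n ∈ G, av p n ≤ B) :
    ∑ n ∈ G, ((av p n : ℝ) - min (av p n : ℝ) K) =
      ∑ k ∈ Ioc K B, ((G.filter (fun n => p ^ k ∣ n.factorial + 1)).card : ℝ) := by
  have h1 : ∀ k ∈ Ioc K B, ((G.filter (fun n => p ^ k ∣ n.factorial + 1)).card : ℝ) =
      ∑ n ∈ G, if k ≤ av p n then (1 : ℝ) else 0 := by
    intro k _
    rw [Finset.card_filter]
    push_cast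
    apply Finset.sum_congr rfl
    intro n _
    simp only [pow_dvd_iff_le_av hp]
  rw [Finset.sum_congr rfl h1, Finset.sum_comm]
  apply Finset.sum_congr rfl
  intro n hn
  rw [← Finset.sum_filter]
  have h2 : (Ioc K B).filter (fun k => k ≤ av p n) = Ioc K (av p n) := by
    ext k
    simp only [mem_filter, mem_Ioc]
    have := hB n hn
    constructor
    · rintro ⟨⟨h1, h2⟩, h3⟩; exact ⟨h1, h3⟩
    · rintro ⟨h1, h2⟩; exact ⟨⟨h1, by omega⟩, h2⟩
  rw [h2]
  simp only [sum_const, Nat.card_Ioc, nsmul_eq_mul, mul_one]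
  rcases le_total (av p n) K with h | h
  · rw [min_eq_left (by exact_mod_cast h), Nat.sub_eq_zero_of_le h]
    simp
  · rw [min_eq_right (by exact_mod_cast h), Nat.cast_sub h]

theorem sep_card (S : Finset ℕ) (lo hi s : ℝ) (hs : 0 < s) (hlh : lo ≤ hi)
    (hS : ∀ n ∈ S, lo ≤ (n : ℝ) ∧ (n : ℝ) ≤ hi)
    (hsep : ∀ n ∈ S, ∀ n' ∈ S, n < n' → s ≤ (n' : ℝ) - n) : (S.card : ℝ) ≤ (hi - lo) / s + 1 := by
  set f : ℕ → ℕ := fun n => ⌊((n : ℝ) - lo) / s⌋₊ with hf
  have hlt : ∀ n ∈ S, ∀ n' ∈ S, n < n' → f n < f n' := by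
    intro n hn n' hn' h
    have h1 := hsep n hn n' hn' h
    have h2 : ((n : ℝ) - lo) / s + 1 ≤ ((n' : ℝ) - lo) / s := by
      rw [div_add_one hs.ne', div_le_div_iff_of_pos_right hs]
      linarith
    have h3 : 0 ≤ ((n : ℝ) - lo) / s := div_nonneg (by linarith [(hS n hn).1]) hs.le
    have h4 := Nat.floor_le_floor h2
    rw [Nat.floor_add_one h3] at h4
    exact h4
  have hinj : Set.InjOn f S := by
    intro n hn n' hn' h
    rcases lt_trichotomy n n' with h1 | h1 | h1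
    · exact absurd h (hlt n hn n' hn' h1).ne
    · exact h1
    · exact absurd h (hlt n' hn' n hn h1).ne'
  have h3 : S.image f ⊆ range (⌊(hi - lo) / s⌋₊ + 1) := by
    intro a ha
    obtain ⟨n, hn, rfl⟩ := mem_image.1 ha
    rw [mem_range, Nat.lt_succ_iff]
    apply Nat.floor_le_floor
    have := (hS n hn).2
    gcongr
  have h4 := Finset.card_le_card h3
  rw [card_range, Finset.card_image_of_injOn hinj] at h4
  have h6 : (S.card : ℝ) ≤ (⌊(hi - lo) / s⌋₊ : ℝ) + 1 := by exact_mod_cast h4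
  have h7 : (⌊(hi - lo) / s⌋₊ : ℝ) ≤ (hi - lo) / s :=
    Nat.floor_le (div_nonneg (by linarith) hs.le)
  linarith

theorem sum_inv_le (T N : ℕ) (hT : 1 ≤ T) (hTN : T ≤ N) :
    ∑ k ∈ Ioc T N, (1 : ℝ) / k ≤ Real.log N - Real.log T := by
  induction N, hTN using Nat.le_induction with
  | base => simp
  | succ N hN ih =>
    rw [← Finset.insert_Ioc_right_eq_Ioc_add_one (by omega), Finset.sum_insert (by simp)]
    have hN0 : (0 : ℝ) < N := by
      have : 0 < N := by omega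
      exact_mod_cast this
    have h1 := Real.one_sub_inv_le_log_of_pos (x := ((N : ℝ) + 1) / N) (by positivity)
    rw [Real.log_div (by positivity) (by positivity)] at h1
    have h2 : 1 - (((N : ℝ) + 1) / N)⁻¹ = 1 / ((N : ℝ) + 1) := by
      field_simp
      ring
    rw [h2] at h1
    push_cast
    linarith

/-- the packing bound for nested separated sets -/
theorem sum_Q (x lm δ e d σ0 Lmax D : ℝ) (R K T : ℕ) (Q : ℕ → Finset ℕ) (lo hi : ℝ)
    (hKT : K < T) (hx : 0 < x) (hlm : 0 ≤ lm) (hδ : 0 < δ) (he : 0 ≤ e) (hd : 0 < d)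
    (hnest : ∀ k, K < k → Q (k + 1) ⊆ Q k)
    (hsep : ∀ k, K < k → k ≤ T → ∀ s ∈ Q k, ∀ t ∈ Q k, s < t → sg x lm R k ≤ (t : ℝ) - s)
    (hloc : ∀ k, K < k → k ≤ T → ∀ s ∈ Q k, lo ≤ (s : ℝ) ∧ (s : ℝ) ≤ hi)
    (hD : ∀ b, K < b → b ≤ T → sg x lm R b ≤ D)
    (hσ0 : 0 < σ0) (hσ1 : ∀ b, K < b → b ≤ T → σ0 ≤ sg x lm R b)
    (hl : ∀ b : ℕ, K < b → b ≤ T → 1 ≤ b ∧ 2 ≤ Real.log b ∧ Real.log b ≤ (1 - δ) * x)
    (hR : 1 ≤ (1 + e) * ((x - lm) / x) * (1 - (1 - δ) ^ R))
    (hxd : 4 * Real.log 2 ≤ d * x) (hxd2 : 2 + Real.log 2 - Real.log (d / 2) ≤ d * x)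
    (hLmax : Real.log Lmax ≤ (1 + d / 2) * x) (hlh : lo ≤ hi) (hL : hi - lo + 2 * D ≤ Lmax) :
    ∑ k ∈ Ioc K T, ((Q k).card : ℝ) ≤ PP x d e (Real.log σ0) (hi - lo + 2 * D) := by
  have hanti : ∀ i, K < i → ∀ j, i ≤ j → Q j ⊆ Q i := by
    intro i hi j hij
    induction j, hij using Nat.le_induction with
    | base => exact Subset.refl _
    | succ j hj ih => exact (hnest j (by omega)).trans ih
  set b : ℕ → ℕ := fun s => ((Ioc K T).filter (fun k => s ∈ Q k)).sup id with hb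
  have hbs : ∀ s ∈ Q (K + 1), (K < b s ∧ b s ≤ T) ∧ s ∈ Q (b s) := by
    intro s hs
    have hne : ((Ioc K T).filter (fun k => s ∈ Q k)).Nonempty :=
      ⟨K + 1, by rw [mem_filter, mem_Ioc]; exact ⟨⟨by omega, by omega⟩, hs⟩⟩
    obtain ⟨r, hr, hre⟩ := Finset.exists_mem_eq_sup _ hne id
    have h1 : b s = r := hre
    rw [mem_filter, mem_Ioc] at hr
    rw [h1]
    exact hr
  have hcount : ∑ k ∈ Ioc K T, ((Q k).card : ℝ) ≤ ∑ s ∈ Q (K + 1), (b s : ℝ) := by
    have h1 : ∀ k ∈ Ioc K T, ((Q k).card : ℝ) = ∑ s ∈ Q (K + 1), if s ∈ Q k then (1 : ℝ) else 0 := by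
      intro k hk
      rw [mem_Ioc] at hk
      rw [← Finset.sum_filter]
      have : (Q (K + 1)).filter (fun s => s ∈ Q k) = Q k := by
        ext s
        rw [mem_filter]
        exact ⟨fun h => h.2, fun h => ⟨hanti (K + 1) (by omega) k (by omega) h, h⟩⟩
      rw [this]
      simp
    rw [Finset.sum_congr rfl h1, Finset.sum_comm]
    apply Finset.sum_le_sum
    intro s hs
    rw [← Finset.sum_filter]
    simp only [sum_const, nsmul_eq_mul, mul_one]
    have h2 : (Ioc K T).filter (fun k => s ∈ Q k) ⊆ Ioc 0 (b s) := by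
      intro k hk
      have h3 : k ≤ b s := Finset.le_sup (f := id) hk
      rw [mem_filter, mem_Ioc] at hk
      rw [mem_Ioc]
      omega
    have h3 := Finset.card_le_card h2
    rw [Nat.card_Ioc] at h3
    exact_mod_cast h3
  refine hcount.trans ?_
  have hbK : K < K + 1 := by omega
  have hK1T : K + 1 ≤ T := by omega
  have hDpos : σ0 ≤ D := (hσ1 (K + 1) hbK hK1T).trans (hD (K + 1) hbK hK1T)
  have hlogLe : ∀ L, 0 < L → L ≤ Lmax → Real.log L ≤ (1 + d / 2) * x := fun L h1 h2 =>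
    (Real.log_le_log h1 h2).trans hLmax
  have hmain := packing (PP x d e (Real.log σ0)) (sg x lm R) K T σ0 Lmax
    (fun L h1 h2 => PP_nonneg hx he hd.le (lt_of_lt_of_le hσ0 h1)
      (Real.log_le_log hσ0 h1) (hlogLe L (lt_of_lt_of_le hσ0 h1) h2))
    (by
      intro c hc1 hc2
      have key : ∀ L1 L2, sg x lm R c ≤ L1 → sg x lm R c ≤ L2 → L1 + L2 ≤ Lmax → L1 ≤ L2 →
          (c : ℝ) + PP x d e (Real.log σ0) L1 + PP x d e (Real.log σ0) L2 ≤
            PP x d e (Real.log σ0) (L1 + L2) := by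
        intro L1 L2 h1 h2 h3 h12
        have hL1 : 0 < L1 := lt_of_lt_of_le (lt_of_lt_of_le hσ0 (hσ1 c hc1 hc2)) h1
        have hsum := hlogLe (L1 + L2) (by linarith) h3
        have h2L : Real.log L1 + Real.log 2 ≤ (1 + d / 2) * x := by
          have h4 : L1 * 2 ≤ L1 + L2 := by linarith
          have h5 := Real.log_le_log (by positivity) h4
          rw [Real.log_mul hL1.ne' (by norm_num)] at h5
          linarith
        obtain ⟨l1, l2, l3⟩ := hl c hc1 hc2
        exact PP_super hx he hd hL1 h12 hsum hxd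
          (level_le hx hlm l1 l2 l3 hδ he hd hR hL1 h1 h2L hxd2)
      intro L1 L2 h1 h2 h3
      rcases le_total L1 L2 with h | h
      · exact key L1 L2 h1 h2 h3 h
      · have := key L2 L1 h2 h1 (by linarith) h
        rw [add_comm L2 L1] at this
        linarith)
    hσ1 hσ0.le (Q (K + 1)).card (Q (K + 1)) rfl b (fun s hs => (hbs s hs).1)
    (by
      intro s hs t ht hst
      have h1 := hbs s hs
      have h2 := hbs t ht
      have hk1 : K < min (b s) (b t) := lt_min h1.1.1 h2.1.1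
      have hk2 : min (b s) (b t) ≤ T := (min_le_left _ _).trans h1.1.2
      exact hsep _ hk1 hk2 s (hanti _ hk1 _ (min_le_left _ _) h1.2) t
        (hanti _ hk1 _ (min_le_right _ _) h2.2) hst)
    (lo - D) (hi + D)
    (by
      intro s hs
      have h1 := hbs s hs
      have h2 := hloc _ h1.1.1 h1.1.2 s h1.2
      have h3 := hD _ h1.1.1 h1.1.2
      linarith)
    (by
      intro s hs
      have h1 := hbs s hs
      have h2 := hloc _ h1.1.1 h1.1.2 s h1.2
      have h3 := hD _ h1.1.1 h1.1.2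
      linarith)
    (by linarith) (by linarith)
  have h5 : hi + D - (lo - D) = hi - lo + 2 * D := by ring
  rwa [h5] at hmain

end Pool.Agent.Lib.MP_1ccaad_nt
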