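import Mathlib
import Pool.Agent.Lib.MP_d9bc60_nt.TH.W8bPnt
import Pool.Agent.Lib.MP_1ccaad_nt.Gap

set_option autoImplicit false

namespace Pool.Agent.Lib.MP_1ccaad_nt

open Finset Filter

theorem sum_Icc_id (N : ℕ) : ∑ n ∈ Icc 1 N, (n : ℝ) = N * (N + 1) / 2 := by
  induction N with
  | zero => simp
  | succ N ih =>
    rw [← Finset.insert_Icc_right_eq_Icc_add_one (by omega), Finset.sum_insert (by simp), ih]
    push_cast
    ring

theorem mass_lower (N : ℕ) (hN : 1 ≤ N) (G : Finset ℕ) (hG : G ⊆ Icc 1 N) :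
    (N : ℝ) ^ 2 / 2 * Real.log N - 2 * (N : ℝ) ^ 2
      - ((Icc 1 N \ G).card : ℝ) * (N * Real.log N) ≤
    ∑ n ∈ G, Real.log ((n.factorial : ℝ) + 1) := by
  have hN0 : (0 : ℝ) < N := by exact_mod_cast hN
  set x := Real.log N with hx
  have hx0 : 0 ≤ x := Real.log_natCast_nonneg N
  -- termwise lower bound
  have h1 : ∀ n ∈ Icc 1 N, (n : ℝ) * x - N ≤ Real.log ((n.factorial : ℝ) + 1) := by
    intro n hn
    rw [mem_Icc] at hn
    have hn0 : (0 : ℝ) < n := by exact_mod_cast hn.1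
    have h2 := log_factorial_ge n hn.1
    have hf : (0 : ℝ) < n.factorial := by exact_mod_cast Nat.factorial_pos n
    have h3 : Real.log n.factorial ≤ Real.log ((n.factorial : ℝ) + 1) :=
      Real.log_le_log hf (by linarith)
    have h4 := Real.log_le_sub_one_of_pos (x := (N : ℝ) / n) (by positivity)
    rw [Real.log_div hN0.ne' hn0.ne'] at h4
    have h5 : (n : ℝ) * (Real.log N - Real.log n) ≤ n * ((N : ℝ) / n - 1) :=
      mul_le_mul_of_nonneg_left h4 hn0.le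
    have h6 : (n : ℝ) * ((N : ℝ) / n - 1) = N - n := by field_simp
    rw [h6] at h5
    rw [← hx] at h5
    linarith
  -- termwise upper bound
  have h2 : ∀ n ∈ Icc 1 N, Real.log ((n.factorial : ℝ) + 1) ≤ N * x + N := by
    intro n hn
    rw [mem_Icc] at hn
    have h3 : (n.factorial : ℝ) + 1 ≤ (N : ℝ) ^ N + (N : ℝ) ^ N := by
      have h4 : n.factorial ≤ N ^ N := (Nat.factorial_le hn.2).trans (Nat.factorial_le_pow N)
      have h5 : 1 ≤ N ^ N := Nat.one_le_pow _ _ (by omega)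
      exact_mod_cast Nat.add_le_add h4 h5
    have h4 := Real.log_le_log (by positivity) h3
    rw [← two_mul, Real.log_mul (by norm_num) (by positivity), Real.log_pow] at h4
    have h5 := Real.log_two_lt_d9
    have h6 : (1 : ℝ) ≤ N := by exact_mod_cast hN
    linarith
  have hsplit : ∑ n ∈ Icc 1 N, Real.log ((n.factorial : ℝ) + 1) =
      ∑ n ∈ Icc 1 N \ G, Real.log ((n.factorial : ℝ) + 1) +
      ∑ n ∈ G, Real.log ((n.factorial : ℝ) + 1) := (Finset.sum_sdiff hG).symm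
  have hsum1 : (N : ℝ) ^ 2 / 2 * x - (N : ℝ) ^ 2 ≤
      ∑ n ∈ Icc 1 N, Real.log ((n.factorial : ℝ) + 1) := by
    refine le_trans ?_ (Finset.sum_le_sum h1)
    rw [Finset.sum_sub_distrib, ← Finset.sum_mul]
    rw [sum_Icc_id]
    simp only [sum_const, Nat.card_Icc, Nat.add_sub_cancel, nsmul_eq_mul]
    have : 0 ≤ (N : ℝ) * x := by positivity
    nlinarith
  have hsum2 : ∑ n ∈ Icc 1 N \ G, Real.log ((n.factorial : ℝ) + 1) ≤
      ((Icc 1 N \ G).card : ℝ) * (N * x) + (N : ℝ) ^ 2 := by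
    have h3 : ∑ n ∈ Icc 1 N \ G, Real.log ((n.factorial : ℝ) + 1) ≤
        ∑ n ∈ Icc 1 N \ G, ((N : ℝ) * x + N) :=
      Finset.sum_le_sum fun n hn => h2 n (Finset.mem_sdiff.1 hn).1
    refine h3.trans ?_
    simp only [sum_const, nsmul_eq_mul]
    have h4 : ((Icc 1 N \ G).card : ℝ) ≤ N := by
      have := Finset.card_le_card (Finset.sdiff_subset (s := Icc 1 N) (t := G))
      rw [Nat.card_Icc, Nat.add_sub_cancel] at this
      exact_mod_cast this
    have h5 : ((Icc 1 N \ G).card : ℝ) * N ≤ N * N := mul_le_mul_of_nonneg_right h4 hN0.le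
    nlinarith
  linarith

open Pool.Agent.Lib.MP_d9bc60_nt.TH in
theorem theta_pnt (ε : ℝ) (hε : 0 < ε) : ∀ᶠ n : ℕ in atTop,
    |(∑ p ∈ (Ioc 0 n).filter Nat.Prime, Real.log p) - n| ≤ ε * n := by
  have h1 := tz_tendsto (q := 1) (a := 0) (isUnit_of_subsingleton _)
  simp only [Nat.totient_one, Nat.cast_one, inv_one] at h1
  have h2 := (Metric.tendsto_nhds.1 h1) ε hε
  filter_upwards [h2, eventually_ge_atTop 1] with n h2 hn
  have hn0 : (0 : ℝ) < n := by exact_mod_cast hn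
  have h3 : tz 1 0 n 0 = ∑ p ∈ (Ioc 0 n).filter Nat.Prime, Real.log p := by
    unfold tz lam
    rw [Finset.sum_filter, Finset.sum_filter]
    apply Finset.sum_congr rfl
    intro k _
    have : (k : ZMod 1) = 0 := Subsingleton.elim _ _
    simp [this]
  rw [h3, Real.dist_eq] at h2
  have h4 : (∑ p ∈ (Ioc 0 n).filter Nat.Prime, Real.log p) - n =
      ((∑ p ∈ (Ioc 0 n).filter Nat.Prime, Real.log p) / n - 1) * n := by
    field_simp
  rw [h4, abs_mul, abs_of_pos hn0]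
  exact mul_le_mul_of_nonneg_right h2.le hn0.le

theorem mass_primes (C ε : ℝ) (hC : 1 < C) (hε : 0 < ε) (m : ℕ) (hm : 1 ≤ m) :
    ∀ᶠ N : ℕ in atTop, ∑ p ∈ (Icc 1 ⌊C * N⌋₊).filter Nat.Prime,
      Real.log p * (((Icc 1 N).filter
        (fun n : ℕ => N ≤ m * n ∧ n < p ∧ (p : ℝ) ≤ C * n)).card : ℝ)
      ≤ (C - 1 + ε) * (N : ℝ) ^ 2 / 2 := by
  set θ : ℕ → ℝ := fun n => ∑ p ∈ (Ioc 0 n).filter Nat.Prime, Real.log p with hθ
  have hC0 : 0 < C := by linarith
  obtain ⟨n₀, hn₀⟩ := eventually_atTop.1 (theta_pnt (ε / (2 * (C + 1))) (by positivity))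
  have hN1 : ∀ᶠ N : ℕ in atTop, ((C - 1 + ε / 2) * 2 / ε) ≤ (N : ℝ) :=
    tendsto_natCast_atTop_atTop.eventually (eventually_ge_atTop _)
  filter_upwards [hN1, eventually_ge_atTop (m * n₀ + 1)] with N hN1 hN2
  have hN0 : (0 : ℝ) < N := by
    have : 0 < N := by omega
    exact_mod_cast this
  -- swap the sums
  have hswap : ∑ p ∈ (Icc 1 ⌊C * N⌋₊).filter Nat.Prime,
      Real.log p * (((Icc 1 N).filter
        (fun n : ℕ => N ≤ m * n ∧ n < p ∧ (p : ℝ) ≤ C * n)).card : ℝ) =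
      ∑ n ∈ Icc 1 N, ∑ p ∈ (Icc 1 ⌊C * N⌋₊).filter Nat.Prime,
        if (N ≤ m * n ∧ n < p ∧ (p : ℝ) ≤ C * n) then Real.log p else 0 := by
    rw [Finset.sum_comm]
    apply Finset.sum_congr rfl
    intro p _
    rw [← Finset.sum_filter, Finset.sum_const, nsmul_eq_mul, mul_comm]
  rw [hswap]
  have hterm : ∀ n ∈ Icc 1 N, ∑ p ∈ (Icc 1 ⌊C * N⌋₊).filter Nat.Prime,
        (if (N ≤ m * n ∧ n < p ∧ (p : ℝ) ≤ C * n) then Real.log p else 0) ≤
      (C - 1 + ε / 2) * n := by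
    intro n hn
    rw [mem_Icc] at hn
    have hn0 : (0 : ℝ) < n := by exact_mod_cast hn.1
    by_cases hm' : N ≤ m * n
    · have hnn : n₀ ≤ n := by
        by_contra hc
        push Not at hc
        have : m * n ≤ m * n₀ := Nat.mul_le_mul_left _ hc.le
        omega
      have hfl : n ≤ ⌊C * n⌋₊ := by
        apply Nat.le_floor
        exact le_mul_of_one_le_left hn0.le hC.le
      have h1 : ∑ p ∈ (Icc 1 ⌊C * N⌋₊).filter Nat.Prime,
          (if (N ≤ m * n ∧ n < p ∧ (p : ℝ) ≤ C * n) then Real.log p else 0) ≤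
          ∑ p ∈ (Ioc n ⌊C * n⌋₊).filter Nat.Prime, Real.log p := by
        rw [← Finset.sum_filter]
        apply Finset.sum_le_sum_of_subset_of_nonneg
        · intro p hp
          rw [mem_filter, mem_filter] at hp
          rw [mem_filter, mem_Ioc]
          exact ⟨⟨hp.2.2.1, Nat.le_floor hp.2.2.2⟩, hp.1.2⟩
        · intro p _ _
          exact Real.log_natCast_nonneg p
      have h2 : θ n + ∑ p ∈ (Ioc n ⌊C * n⌋₊).filter Nat.Prime, Real.log p = θ ⌊C * n⌋₊ := by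
        rw [hθ]
        simp only [Finset.sum_filter]
        exact Finset.sum_Ioc_consecutive _ (Nat.zero_le n) hfl
      have h3 := (abs_le.1 (hn₀ n hnn)).1
      have h4 := (abs_le.1 (hn₀ ⌊C * n⌋₊ (hnn.trans hfl))).2
      have h5 : ((⌊C * n⌋₊ : ℕ) : ℝ) ≤ C * n := Nat.floor_le (by positivity)
      have h6 : ε / (2 * (C + 1)) * ((⌊C * n⌋₊ : ℕ) : ℝ) ≤ ε / (2 * (C + 1)) * (C * n) :=
        mul_le_mul_of_nonneg_left h5 (by positivity)
      have h7 : ε / (2 * (C + 1)) * (C * n) + ε / (2 * (C + 1)) * n = ε / 2 * n := by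
        field_simp
      have h8 : θ ⌊C * n⌋₊ - ((⌊C * n⌋₊ : ℕ) : ℝ) ≤ ε / (2 * (C + 1)) * ((⌊C * n⌋₊ : ℕ) : ℝ) := h4
      have h9 : -(ε / (2 * (C + 1)) * (n : ℝ)) ≤ θ n - n := h3
      linarith
    · have h1 : ∑ p ∈ (Icc 1 ⌊C * N⌋₊).filter Nat.Prime,
          (if (N ≤ m * n ∧ n < p ∧ (p : ℝ) ≤ C * n) then Real.log p else 0) = 0 := by
        apply Finset.sum_eq_zero
        intro p _
        rw [if_neg]
        exact fun h => hm' h.1
      rw [h1]
      have : 0 ≤ C - 1 + ε / 2 := by linarith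
      positivity
  refine (Finset.sum_le_sum hterm).trans ?_
  rw [← Finset.mul_sum, sum_Icc_id]
  rw [div_le_iff₀ hε] at hN1
  have h1 : (C - 1 + ε / 2) * 2 * N ≤ N * ε * N := mul_le_mul_of_nonneg_right hN1 hN0.le
  have h2 : (C - 1 + ε / 2) * (N * (N + 1) / 2) =
      ((C - 1) * (N : ℝ) ^ 2 + ε / 2 * (N : ℝ) ^ 2 + (C - 1 + ε / 2) * N) / 2 := by ring
  rw [h2]
  have h3 : (N : ℝ) * ε * N = ε * (N : ℝ) ^ 2 := by ring
  rw [h3] at h1
  have h4 : (C - 1 + ε) * (N : ℝ) ^ 2 / 2 =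
    ((C - 1) * (N : ℝ) ^ 2 + ε * (N : ℝ) ^ 2) / 2 := by ring
  rw [h4]
  linarith

end Pool.Agent.Lib.MP_1ccaad_nt
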