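import Mathlib
import Pool.Agent.Lib.MP_1ccaad_nt.Level

set_option autoImplicit false

namespace Pool.Agent.Lib.MP_1ccaad_nt

open Finset Filter

theorem per_prime_core (N m p K T R A : ℕ) (lo hi δ e d σ0 : ℝ) (G : Finset ℕ)
    (hp : p.Prime) (hG : ∀ n ∈ G, n ≤ N ∧ N ≤ m * n)
    (hloc : ∀ n ∈ G, p ∣ n.factorial + 1 → lo ≤ (n : ℝ) ∧ (n : ℝ) ≤ hi)
    (hlh : lo ≤ hi) (hN : 2 ≤ N)
    (hgap : ∀ k n₁ n₂ n₃ n₄ : ℕ, K < k → k ≤ T →
      n₁ < n₂ → n₂ ≤ n₃ → n₃ < n₄ → n₄ ≤ N → N ≤ m * n₁ →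
      n₄ ≤ n₁ + (2 * A) * k → p ^ k ∣ n₁.factorial + 1 → p ^ k ∣ n₂.factorial + 1 →
      p ^ k ∣ n₃.factorial + 1 → p ^ k ∣ n₄.factorial + 1 →
      (k : ℝ) * (Real.log N - Real.log m) +
        (Real.log k - 2) * min ((n₂ : ℝ) - n₁) ((n₄ : ℝ) - n₃) ≤
        max ((n₂ : ℝ) - n₁) ((n₄ : ℝ) - n₃) * Real.log N)
    (hK : 1 ≤ K) (hKT : K < T) (hTN : T ≤ N) (hRA : R ≤ A) (hR1 : 1 ≤ R)
    (hm2 : 2 * Real.log m ≤ Real.log N)
    (hl : ∀ b : ℕ, K < b → b ≤ T → 2 ≤ Real.log b ∧ Real.log b ≤ (1 - δ) * Real.log N)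
    (hδ : 0 < δ) (he : 0 ≤ e) (hd : 0 < d) (hσ0 : 0 < σ0) (hσK : 2 * σ0 ≤ K)
    (hR : 1 ≤ (1 + e) * ((Real.log N - Real.log m) / Real.log N) * (1 - (1 - δ) ^ R))
    (hxd : 4 * Real.log 2 ≤ d * Real.log N)
    (hxd2 : 2 + Real.log 2 - Real.log (d / 2) ≤ d * Real.log N)
    (hLmax : Real.log (hi - lo + 2 * (R * T)) ≤ (1 + d / 2) * Real.log N) :
    ∑ n ∈ G, ((av p n : ℝ) - min (av p n : ℝ) K) ≤
      PP (Real.log N) d e (Real.log σ0) (hi - lo + 2 * (R * T)) +
      (2 * (R * ((hi - lo) / A * Real.log N + T)) +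
      (2 * (hi - lo) * (Real.log N - Real.log T) + N)) := by
  set x := Real.log N with hx
  set lm := Real.log m with hlm
  have hx0 : 0 < x := Real.log_pos (by exact_mod_cast hN)
  have hlm0 : 0 ≤ lm := Real.log_natCast_nonneg m
  have hκ : 1 / 2 ≤ (x - lm) / x := by
    rw [div_le_div_iff₀ (by norm_num) hx0]; linarith
  have hκ1 : (x - lm) / x ≤ 1 := by
    rw [div_le_one hx0]; linarith
  have hA0 : (0 : ℝ) < A := by
    have : 0 < A := by omega
    exact_mod_cast this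
  -- level sets
  set S : ℕ → Finset ℕ := fun k => G.filter (fun n => p ^ k ∣ n.factorial + 1) with hS
  have hSmem : ∀ k n, n ∈ S k ↔ n ∈ G ∧ p ^ k ∣ n.factorial + 1 := by
    intro k n; rw [hS]; simp
  have hSnest : ∀ k, S (k + 1) ⊆ S k := by
    intro k n hn
    rw [hSmem] at hn ⊢
    exact ⟨hn.1, (pow_dvd_pow p (Nat.le_succ k)).trans hn.2⟩
  have hSloc : ∀ k, 1 ≤ k → ∀ n ∈ S k, lo ≤ (n : ℝ) ∧ (n : ℝ) ≤ hi := by
    intro k hk n hn
    rw [hSmem] at hn
    exact hloc n hn.1 ((dvd_pow_self p (by omega)).trans hn.2)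
  have hSsep : ∀ k, 1 ≤ k → ∀ s ∈ S k, ∀ t ∈ S k, s < t → (k : ℝ) * ((x - lm) / x) ≤ (t : ℝ) - s := by
    intro k hk s hs t ht hst
    rw [hSmem] at hs ht
    have h1 := gap0 hp hk hst hs.2 ht.2 (hG s hs.1).2 (hG t ht.1).1
    rw [← mul_div_assoc, div_le_iff₀ hx0]
    exact h1
  -- bounds for `u`
  have hu0 : ∀ k, K < k → k ≤ T → 0 ≤ (Real.log k - 2) / x := fun k h1 h2 =>
    div_nonneg (by linarith [(hl k h1 h2).1]) hx0.le
  have hu1 : ∀ k, K < k → k ≤ T → (Real.log k - 2) / x ≤ 1 := fun k h1 h2 => by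
    rw [div_le_one hx0]
    have := (hl k h1 h2).2
    have h3 : 0 ≤ δ * x := by positivity
    linarith
  have hsg_le : ∀ k, K < k → k ≤ T → sg x lm R k ≤ R * k := by
    intro k h1 h2
    unfold sg
    have h3 : ∑ i ∈ range R, ((Real.log k - 2) / x) ^ i ≤ R := by
      calc ∑ i ∈ range R, ((Real.log k - 2) / x) ^ i ≤ ∑ i ∈ range R, (1 : ℝ) :=
            Finset.sum_le_sum fun i _ => pow_le_one₀ (hu0 k h1 h2) (hu1 k h1 h2)
        _ = R := by simp
    have h4 : 0 ≤ ∑ i ∈ range R, ((Real.log k - 2) / x) ^ i :=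
      Finset.sum_nonneg fun i _ => pow_nonneg (hu0 k h1 h2) i
    have h5 : (k : ℝ) * ((x - lm) / x) ≤ k := by
      have := mul_le_mul_of_nonneg_left hκ1 (Nat.cast_nonneg (α := ℝ) k)
      linarith
    calc (k : ℝ) * ((x - lm) / x) * ∑ i ∈ range R, ((Real.log k - 2) / x) ^ i
        ≤ k * R := mul_le_mul h5 h3 h4 (Nat.cast_nonneg k)
      _ = R * k := by ring
  have hsg_ge : ∀ k, K < k → k ≤ T → (k : ℝ) / 2 ≤ sg x lm R k := by
    intro k h1 h2
    unfold sg
    have h3 : 1 ≤ ∑ i ∈ range R, ((Real.log k - 2) / x) ^ i := by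
      have h4 := Finset.single_le_sum (f := fun i => ((Real.log k - 2) / x) ^ i)
        (fun i _ => pow_nonneg (hu0 k h1 h2) i) (Finset.mem_range.2 (by omega : 0 < R))
      simpa using h4
    have h5 : (k : ℝ) / 2 ≤ k * ((x - lm) / x) := by
      have := mul_le_mul_of_nonneg_left hκ (Nat.cast_nonneg (α := ℝ) k)
      linarith
    calc (k : ℝ) / 2 ≤ k * ((x - lm) / x) * 1 := by linarith
      _ ≤ _ := by
        apply mul_le_mul_of_nonneg_left h3
        have : (0 : ℝ) ≤ k := Nat.cast_nonneg k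
        linarith
  have hmono : ∀ k, K < k → k < T → sg x lm R k ≤ sg x lm R (k + 1) := by
    intro k h1 h2
    unfold sg
    have hk0 : (0 : ℝ) < k := by
      have : 0 < k := by omega
      exact_mod_cast this
    have h3 : Real.log k ≤ Real.log ((k + 1 : ℕ) : ℝ) :=
      Real.log_le_log hk0 (by push_cast; linarith)
    have h4 : ∑ i ∈ range R, ((Real.log k - 2) / x) ^ i ≤
        ∑ i ∈ range R, ((Real.log ((k + 1 : ℕ) : ℝ) - 2) / x) ^ i := by
      apply Finset.sum_le_sum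
      intro i _
      apply pow_le_pow_left₀ (hu0 k h1 h2.le)
      gcongr
    have h5 : (k : ℝ) * ((x - lm) / x) ≤ ((k + 1 : ℕ) : ℝ) * ((x - lm) / x) := by
      apply mul_le_mul_of_nonneg_right (by push_cast; linarith) (by linarith)
    apply mul_le_mul h5 h4 (Finset.sum_nonneg fun i _ => pow_nonneg (hu0 k h1 h2.le) i)
    apply mul_nonneg (Nat.cast_nonneg _) (by linarith)
  obtain ⟨Q, q1, q2, q3, q4, q5⟩ := nested S hSnest (sg x lm R) K T hKT.le hmono
  -- short gaps
  have hshort : ∀ k, K < k → k ≤ T →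
      ((shortL (S k) (sg x lm R k)).card : ℝ) ≤ R * ((hi - lo) / (A * k) + 1) := by
    intro k h1 h2
    have hk0 : (0 : ℝ) < k := by
      have : 0 < k := by omega
      exact_mod_cast this
    apply card_shortL (S k) ((k : ℝ) * ((x - lm) / x)) ((Real.log k - 2) / x) (A * k)
      (sg x lm R k) lo hi R (hu0 k h1 h2) (by positivity) (hSsep k (by omega))
    · intro a ha b hb c hc e' he' hab hbc hcd hW
      rw [hSmem] at ha hb hc he'
      have hW' : e' ≤ a + (2 * A) * k := by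
        have : (e' : ℝ) ≤ a + (2 * A) * k := by linarith
        exact_mod_cast this
      have h3 := hgap k a b c e' h1 h2 hab hbc hcd (hG e' he'.1).1 (hG a ha.1).2 hW'
        ha.2 hb.2 hc.2 he'.2
      have h4 : (k : ℝ) * ((x - lm) / x) + (Real.log k - 2) / x *
          min ((b : ℝ) - a) ((e' : ℝ) - c) =
          ((k : ℝ) * (x - lm) + (Real.log k - 2) * min ((b : ℝ) - a) ((e' : ℝ) - c)) / x := by
        ring
      rw [h4, div_le_iff₀ hx0]
      exact h3
    · unfold sg; rfl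
    · refine (hsg_le k h1 h2).trans ?_
      have : (R : ℝ) ≤ A := by exact_mod_cast hRA
      exact mul_le_mul_of_nonneg_right this hk0.le
    · exact hlh
    · exact hSloc k (by omega)
  -- the packing bound
  have hT0 : (0 : ℝ) < T := by
    have : 0 < T := by omega
    exact_mod_cast this
  have hpack := sum_Q x lm δ e d σ0 (hi - lo + 2 * (R * T)) (R * T) R K T Q lo hi hKT hx0 hlm0
    hδ he hd q2 q4
    (fun k h1 h2 s hs => hSloc k (by omega) s (q1 k hs))
    (fun b h1 h2 => (hsg_le b h1 h2).trans (by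
      have : (b : ℝ) ≤ T := by exact_mod_cast h2
      exact mul_le_mul_of_nonneg_left this (Nat.cast_nonneg R)))
    hσ0
    (fun b h1 h2 => by
      have h3 := hsg_ge b h1 h2
      have h4 : (K : ℝ) ≤ b := by exact_mod_cast h1.le
      linarith)
    (fun b h1 h2 => ⟨by omega, hl b h1 h2⟩) hR hxd hxd2 hLmax hlh le_rfl
  -- assemble
  rw [sum_levels p K N hp G (fun n hn => (av_le hp (by
    have h1 := (hG n hn).2
    rcases Nat.eq_zero_or_pos n with h | h
    · rw [h] at h1; omega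
    · exact h)).trans (hG n hn).1)]
  have hsplit : Ioc K N = Ioc K T ∪ Ioc T N := (Finset.Ioc_union_Ioc_eq_Ioc hKT.le hTN).symm
  have hdisj : Disjoint (Ioc K T) (Ioc T N) := by
    rw [Finset.disjoint_left]
    intro k h1 h2
    rw [mem_Ioc] at h1 h2
    omega
  rw [hsplit, Finset.sum_union hdisj]
  have hlen : 0 ≤ hi - lo := by linarith
  -- upper levels
  have hupper : ∑ k ∈ Ioc T N, ((S k).card : ℝ) ≤ 2 * (hi - lo) * (x - Real.log T) + N := by
    have h1 : ∀ k ∈ Ioc T N, ((S k).card : ℝ) ≤ 2 * (hi - lo) * (1 / k) + 1 := by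
      intro k hk
      rw [mem_Ioc] at hk
      have hk0 : (0 : ℝ) < k := by
        have : 0 < k := by omega
        exact_mod_cast this
      have h2 := sep_card (S k) lo hi ((k : ℝ) / 2) (by positivity) hlh (hSloc k (by omega))
        (fun s hs t ht hst => by
          have h3 := hSsep k (by omega) s hs t ht hst
          have h4 := mul_le_mul_of_nonneg_left hκ hk0.le
          linarith)
      have h3 : (hi - lo) / ((k : ℝ) / 2) = 2 * (hi - lo) * (1 / k) := by
        field_simp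
      rwa [h3] at h2
    calc ∑ k ∈ Ioc T N, ((S k).card : ℝ) ≤ ∑ k ∈ Ioc T N, (2 * (hi - lo) * (1 / (k : ℝ)) + 1) :=
          Finset.sum_le_sum h1
      _ = 2 * (hi - lo) * ∑ k ∈ Ioc T N, 1 / (k : ℝ) + ((N - T : ℕ) : ℝ) := by
          rw [Finset.sum_add_distrib, ← Finset.mul_sum]
          simp
      _ ≤ 2 * (hi - lo) * (x - Real.log T) + N := by
          have h2 := sum_inv_le T N (by omega) hTN
          have h3 : ((N - T : ℕ) : ℝ) ≤ N := by exact_mod_cast Nat.sub_le N T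
          have h4 := mul_le_mul_of_nonneg_left h2 (by positivity : (0 : ℝ) ≤ 2 * (hi - lo))
          linarith
  -- middle levels
  have hmiddle : ∑ k ∈ Ioc K T, ((S k).card : ℝ) ≤ PP x d e (Real.log σ0) (hi - lo + 2 * (R * T)) +
      2 * (R * ((hi - lo) / A * x + T)) := by
    have h1 : ∀ k ∈ Ioc K T, ((S k).card : ℝ) ≤ (Q k).card +
        2 * (R * ((hi - lo) / A * (1 / k) + 1)) := by
      intro k hk
      rw [mem_Ioc] at hk
      have hk0 : (0 : ℝ) < k := by
        have : 0 < k := by omega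
        exact_mod_cast this
      have h2 := hshort k hk.1 hk.2
      have h3 := q5 k hk.1 hk.2
      have h4 : (S k).card ≤ (Q k).card + (S k \ Q k).card := by
        have := Finset.card_sdiff_add_card_eq_card (q1 k)
        omega
      have h5 : ((S k).card : ℝ) ≤ (Q k).card + 2 * ((shortL (S k) (sg x lm R k)).card : ℝ) := by
        have : (S k).card ≤ (Q k).card + 2 * (shortL (S k) (sg x lm R k)).card := by omega
        exact_mod_cast this
      have h6 : (hi - lo) / (A * k) = (hi - lo) / A * (1 / k) := by field_simp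
      rw [h6] at h2
      linarith
    calc ∑ k ∈ Ioc K T, ((S k).card : ℝ)
        ≤ ∑ k ∈ Ioc K T, (((Q k).card : ℝ) + 2 * (R * ((hi - lo) / A * (1 / (k : ℝ)) + 1))) :=
          Finset.sum_le_sum h1
      _ = ∑ k ∈ Ioc K T, ((Q k).card : ℝ) +
          2 * (R * ((hi - lo) / A * ∑ k ∈ Ioc K T, 1 / (k : ℝ) + ((T - K : ℕ) : ℝ))) := by
          rw [Finset.sum_add_distrib, ← Finset.mul_sum, ← Finset.mul_sum, Finset.sum_add_distrib,
            ← Finset.mul_sum]
          simp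
      _ ≤ _ := by
          have h2 := sum_inv_le K T hK hKT.le
          have h3 : ((T - K : ℕ) : ℝ) ≤ T := by exact_mod_cast Nat.sub_le T K
          have h4 : Real.log T ≤ x := Real.log_le_log hT0 (by exact_mod_cast hTN)
          have h5 : 0 ≤ Real.log K := Real.log_natCast_nonneg K
          have h6 : (hi - lo) / A * ∑ k ∈ Ioc K T, 1 / (k : ℝ) ≤ (hi - lo) / A * x :=
            mul_le_mul_of_nonneg_left (by linarith) (by positivity)
          have h7 : (R : ℝ) * ((hi - lo) / A * ∑ k ∈ Ioc K T, 1 / (k : ℝ) + ((T - K : ℕ) : ℝ)) ≤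
              R * ((hi - lo) / A * x + T) :=
            mul_le_mul_of_nonneg_left (by linarith) (Nat.cast_nonneg R)
          linarith
  have := add_le_add hmiddle hupper
  linarith

end Pool.Agent.Lib.MP_1ccaad_nt
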