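import Mathlib
import Pool.Agent.Lib.MP_1ccaad_nt.PerPrime

set_option autoImplicit false

namespace Pool.Agent.Lib.MP_1ccaad_nt

open Finset Filter

theorem ev_log (c : ℝ) : ∀ᶠ N : ℕ in atTop, c ≤ Real.log N :=
  (Real.tendsto_log_atTop.comp tendsto_natCast_atTop_atTop).eventually (eventually_ge_atTop _)

theorem per_prime (ε a : ℝ) (hε : 0 < ε) (ha : 0 < a) (m : ℕ) (hm : 1 ≤ m) :
    ∀ᶠ N : ℕ in atTop, ∀ p : ℕ, p.Prime → ∀ G : Finset ℕ, (∀ n ∈ G, n ≤ N ∧ N ≤ m * n) →
      ∀ lo hi : ℝ, lo ≤ hi → hi - lo ≤ N →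
      (∀ n ∈ G, p ∣ n.factorial + 1 → lo ≤ (n : ℝ) ∧ (n : ℝ) ≤ hi) →
      ∑ n ∈ G, ((av p n : ℝ) - min (av p n : ℝ) (⌈a * √(N : ℝ)⌉₊ : ℝ)) ≤
        (1 / (16 * Real.log 2) + ε) * Real.log N * (hi - lo) + ε * Real.log N * N := by
  -- parameters
  obtain ⟨d, hd0, hd1, hdε⟩ : ∃ d : ℝ, 0 < d ∧ d ≤ 1 / 4 ∧ 16 * d ≤ ε :=
    ⟨min (1 / 4) (ε / 16), by positivity, min_le_left _ _, by
      have := min_le_right (1 / 4) (ε / 16); linarith⟩
  obtain ⟨R, hRd⟩ : ∃ R : ℕ, (1 - d) ^ R < d / 4 :=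
    exists_pow_lt_of_lt_one (by positivity) (by linarith)
  have hR1 : 1 ≤ R := by
    rcases Nat.eq_zero_or_pos R with h | h
    · rw [h, pow_zero] at hRd; linarith
    · exact h
  obtain ⟨A, hA⟩ := exists_nat_ge ((R : ℝ) / d)
  have hR0 : (0 : ℝ) < R := by exact_mod_cast hR1
  have hAR : (R : ℝ) ≤ d * A := by
    rw [div_le_iff₀ hd0] at hA; linarith
  have hRA : R ≤ A := by
    have : (R : ℝ) ≤ A := by
      have h1 : (0 : ℝ) ≤ A := Nat.cast_nonneg A
      nlinarith
    exact_mod_cast this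
  have hA1 : 1 ≤ A := hR1.trans hRA
  have hA0 : (0 : ℝ) < A := by exact_mod_cast hA1
  set c : ℝ := |Real.log (a / 2)| with hc
  have hc0 : 0 ≤ c := abs_nonneg _
  set η : ℝ := ε / (16 * (R + 1)) with hη
  have hη0 : 0 < η := by positivity
  have hl2a := Real.log_two_gt_d9
  have hl2b := Real.log_two_lt_d9
  have hl2 : 0 < Real.log 2 := by linarith
  have hlm0 : 0 ≤ Real.log m := Real.log_natCast_nonneg m
  filter_upwards [gap1 d a hd0 ha (2 * A) m (by omega) hm, eventually_ge_atTop 2,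
    ev_log (4 * (a + 1)), ev_log (4 * (2 + c)), ev_log (4 * Real.log m / d),
    ev_log (2 * Real.log m), ev_log (4 * Real.log 2 / d),
    ev_log ((2 + Real.log 2 - Real.log (d / 2)) / d), ev_log (Real.log (1 + 2 * R) / (d / 2)),
    ev_log (4 * c), ev_log (1 / η / d), ev_log (8 / ε), ev_log (8 * (c + 2) / ε)]
    with N g1 hN2 x1 x2 x3 x4 x5 x6 x7 x8 x9 x10 x11
  intro p hp G hG lo hi hlh hhl hloc
  have hN0 : (0 : ℝ) < N := by
    have : 0 < N := by omega
    exact_mod_cast this
  set x := Real.log N with hx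
  have hx0 : 0 < x := Real.log_pos (by exact_mod_cast hN2)
  have hNexp : (N : ℝ) = Real.exp x := (Real.exp_log hN0).symm
  have hsq : √(N : ℝ) = Real.exp (x / 2) := by
    rw [hNexp, ← Real.exp_half]
  have hsq1 : 1 ≤ √(N : ℝ) := by
    rw [hsq]; exact Real.one_le_exp (by positivity)
  set K := ⌈a * √(N : ℝ)⌉₊ with hK
  set T := ⌊Real.exp ((1 - d) * x)⌋₊ with hT
  have hKlow : a * √(N : ℝ) ≤ K := Nat.le_ceil _
  have hKup : (K : ℝ) < a * √(N : ℝ) + 1 := Nat.ceil_lt_add_one (by positivity)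
  have hTup : (T : ℝ) ≤ Real.exp ((1 - d) * x) := Nat.floor_le (Real.exp_pos _).le
  have hTlow : Real.exp ((1 - d) * x) - 1 < T := Nat.sub_one_lt_floor _
  have hbig : (a + 2) * √(N : ℝ) ≤ Real.exp ((1 - d) * x) := by
    have h1 : (1 - d) * x = (1 / 2 - d) * x + x / 2 := by ring
    rw [h1, Real.exp_add, hsq]
    apply mul_le_mul_of_nonneg_right _ (Real.exp_pos _).le
    have h2 := Real.add_one_le_exp ((1 / 2 - d) * x)
    have h3 : 1 / 4 * x ≤ (1 / 2 - d) * x := mul_le_mul_of_nonneg_right (by linarith) hx0.le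
    linarith
  have hK1 : 1 ≤ K := by
    rw [hK, Nat.one_le_ceil_iff]; positivity
  have hKT : K < T := by
    have h1 : (K : ℝ) < T := by
      have e1 : (a + 2) * √(N : ℝ) = a * √(N : ℝ) + 2 * √(N : ℝ) := by ring
      rw [e1] at hbig
      linarith
    exact_mod_cast h1
  have hTN : T ≤ N := by
    have h1 : (T : ℝ) ≤ N := by
      rw [hNexp]
      refine hTup.trans (Real.exp_le_exp.2 ?_)
      have : 0 ≤ d * x := by positivity
      linarith
    exact_mod_cast h1
  have hT0 : (0 : ℝ) < T := by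
    have : 0 < T := by omega
    exact_mod_cast this
  have hlogb : ∀ b : ℕ, K < b → b ≤ T → 2 ≤ Real.log b ∧ Real.log b ≤ (1 - d) * x := by
    intro b h1 h2
    have h3 : (K : ℝ) ≤ b := by exact_mod_cast h1.le
    have h4 : (b : ℝ) ≤ T := by exact_mod_cast h2
    have hb0 : (0 : ℝ) < b := by
      have : 0 < b := by omega
      exact_mod_cast this
    constructor
    · have h5 : Real.log (a / 2 * Real.exp (x / 2)) ≤ Real.log b := by
        apply Real.log_le_log (by positivity)
        rw [← hsq]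
        have : 0 ≤ a * √(N : ℝ) := by positivity
        linarith
      rw [Real.log_mul (by positivity) (by positivity), Real.log_exp] at h5
      have h6 := neg_abs_le (Real.log (a / 2))
      linarith
    · rw [Real.log_le_iff_le_exp hb0]
      linarith
  have hκ : 1 - d / 4 ≤ (x - Real.log m) / x := by
    rw [le_div_iff₀ hx0]
    rw [div_le_iff₀ hd0] at x3
    linarith
  have hRcond : 1 ≤ (1 + d) * ((x - Real.log m) / x) * (1 - (1 - d) ^ R) := by
    have h1 : (1 - d / 4) * (1 - d / 4) ≤ ((x - Real.log m) / x) * (1 - (1 - d) ^ R) := by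
      apply mul_le_mul hκ (by linarith) (by linarith) (by linarith)
    have h2 : 1 ≤ (1 + d) * ((1 - d / 4) * (1 - d / 4)) := by
      have e1 : (1 + d) * ((1 - d / 4) * (1 - d / 4)) = 1 + d * (1 / 2 - 7 / 16 * d) + d ^ 3 / 16 := by
        ring
      have e2 : 0 ≤ d * (1 / 2 - 7 / 16 * d) := mul_nonneg hd0.le (by linarith)
      have e3 : 0 ≤ d ^ 3 / 16 := by positivity
      rw [e1]; linarith
    calc (1 : ℝ) ≤ (1 + d) * ((1 - d / 4) * (1 - d / 4)) := h2
      _ ≤ (1 + d) * (((x - Real.log m) / x) * (1 - (1 - d) ^ R)) :=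
          mul_le_mul_of_nonneg_left h1 (by linarith)
      _ = _ := by ring
  have hRT : (R : ℝ) * T ≤ R * N := by
    have : (T : ℝ) ≤ N := by exact_mod_cast hTN
    exact mul_le_mul_of_nonneg_left this hR0.le
  have hRT0 : 0 < (R : ℝ) * T := by positivity
  have hLpos : 0 < hi - lo + 2 * (R * T) := by linarith
  have hLmax : Real.log (hi - lo + 2 * (R * T)) ≤ (1 + d / 2) * x := by
    have h1 : hi - lo + 2 * (R * T) ≤ (1 + 2 * R) * N := by
      have e1 : (1 + 2 * (R : ℝ)) * N = N + 2 * (R * N) := by ring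
      rw [e1]; linarith
    have h2 := Real.log_le_log hLpos h1
    rw [Real.log_mul (by positivity) hN0.ne', ← hx] at h2
    rw [div_le_iff₀ (by positivity)] at x7
    linarith
  have core := per_prime_core N m p K T R A lo hi d d d (a / 2 * √(N : ℝ)) G hp hG hloc hlh hN2
    (fun k n₁ n₂ n₃ n₄ h1 h2 h3 h4 h5 h6 h7 h8 d1 d2 d3 d4 =>
      g1 p k n₁ n₂ n₃ n₄ hp (hKlow.trans (by exact_mod_cast h1.le)) (hlogb k h1 h2).2 h3 h4 h5 h6 h7
        h8 d1 d2 d3 d4)
    hK1 hKT hTN hRA hR1 x4 hlogb hd0 hd0.le hd0 (by positivity) (by linarith) hRcond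
    (by rw [div_le_iff₀ hd0] at x5; linarith) (by rw [div_le_iff₀ hd0] at x6; linarith) hLmax
  refine core.trans ?_
  rw [← hx]
  -- the size of PP
  have hσlog : Real.log (a / 2 * √(N : ℝ)) = Real.log (a / 2) + x / 2 := by
    rw [hsq, Real.log_mul (by positivity) (by positivity), Real.log_exp]
  have habs1 := neg_abs_le (Real.log (a / 2))
  have habs2 := le_abs_self (Real.log (a / 2))
  rw [← hc] at habs1 habs2
  have hPP := PP_le (x := x) (d := d) (e := d) (s := Real.log (a / 2 * √(N : ℝ)))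
    (L := hi - lo + 2 * (R * T)) (c := c) hx0 hd0.le hd0.le hLpos hc0 (by linarith)
    (by rw [hσlog]; linarith) (by rw [hσlog]; linarith)
    (by
      rw [hσlog]
      have : d / 2 * x ≤ 1 / 8 * x := mul_le_mul_of_nonneg_right (by linarith) hx0.le
      linarith)
  -- numerical bounds
  have hlam : (1 + d) / (2 * Real.log 2) * (x / 8 + c + d * x) ≤
      (1 / (16 * Real.log 2) + 3 * d) * x + (2 * c) := by
    have h1 : (1 + d) / (2 * Real.log 2) = 1 / (2 * Real.log 2) + d / (2 * Real.log 2) := by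
      rw [add_div]
    have h2 : 1 / (2 * Real.log 2) * (x / 8) = 1 / (16 * Real.log 2) * x := by
      field_simp; norm_num
    have h3 : 1 / (2 * Real.log 2) ≤ 1 := by
      rw [div_le_one (by positivity)]; linarith
    have h4 : d / (2 * Real.log 2) ≤ d := by
      rw [div_le_iff₀ (by positivity)]
      exact le_mul_of_one_le_right hd0.le (by linarith)
    have h5 : 1 / (2 * Real.log 2) * (c + d * x) ≤ 1 * (c + d * x) :=
      mul_le_mul_of_nonneg_right h3 (by positivity)
    have h6 : d / (2 * Real.log 2) * (x / 8 + c + d * x) ≤ d * (x / 8 + c + d * x) :=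
      mul_le_mul_of_nonneg_right h4 (by positivity)
    have h7 : d * (x / 8 + c + d * x) ≤ 1 / 4 * c + d * x := by
      have h8 : d * c ≤ 1 / 4 * c := mul_le_mul_of_nonneg_right hd1 hc0
      have h9 : d * (d * x) ≤ 1 / 4 * (d * x) := mul_le_mul_of_nonneg_right hd1 (by positivity)
      have h10 : 0 ≤ d * x := by positivity
      have h11 : d * (x / 8 + c + d * x) = d * x / 8 + d * c + d * (d * x) := by ring
      rw [h11]; linarith
    calc (1 + d) / (2 * Real.log 2) * (x / 8 + c + d * x)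
        = 1 / (2 * Real.log 2) * (x / 8) + 1 / (2 * Real.log 2) * (c + d * x) +
          d / (2 * Real.log 2) * (x / 8 + c + d * x) := by rw [h1]; ring
      _ ≤ (1 / (16 * Real.log 2) + 3 * d) * x + (2 * c) := by
          rw [h2]
          have h10 : 0 ≤ d * x := by positivity
          have h11 : (1 / (16 * Real.log 2) + 3 * d) * x + (2 * c) =
            1 / (16 * Real.log 2) * x + 3 * (d * x) + 2 * c := by ring
          rw [h11]
          linarith
  have hlam2 : (1 + d) / (2 * Real.log 2) * ((hi - lo + 2 * (R * T)) * (x / 8 + c + d * x)) ≤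
      (hi - lo + 2 * (R * T)) * ((1 / (16 * Real.log 2) + 3 * d) * x + (2 * c)) := by
    have := mul_le_mul_of_nonneg_left hlam hLpos.le
    calc _ = (hi - lo + 2 * (R * T)) * ((1 + d) / (2 * Real.log 2) * (x / 8 + c + d * x)) := by ring
      _ ≤ _ := this
  have hTη : (T : ℝ) ≤ η * N := by
    have h1 : Real.exp ((1 - d) * x) = Real.exp (-(d * x)) * N := by
      rw [hNexp, ← Real.exp_add]; congr 1; ring
    have h2 : Real.exp (-(d * x)) ≤ η := by
      rw [Real.exp_neg]
      rw [div_le_iff₀ hd0] at x9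
      have h3 := Real.add_one_le_exp (d * x)
      rw [inv_le_comm₀ (Real.exp_pos _) hη0]
      have h4 : η⁻¹ = 1 / η := by rw [one_div]
      rw [h4]
      linarith
    refine hTup.trans ?_
    rw [h1]
    exact mul_le_mul_of_nonneg_right h2 hN0.le
  have hlogT : x - Real.log T ≤ d * x + 1 := by
    have h1 : Real.exp ((1 - d) * x - 1) ≤ T := by
      have h2 : Real.exp ((1 - d) * x - 1) = Real.exp ((1 - d) * x) * Real.exp (-1) := by
        rw [← Real.exp_add]; congr 1
      have h3 : Real.exp (-1) ≤ 1 / 2 := by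
        rw [Real.exp_neg]
        have := Real.add_one_le_exp (1 : ℝ)
        rw [one_div]
        exact inv_anti₀ (by norm_num) (by linarith)
      have h4 : 2 ≤ Real.exp ((1 - d) * x) := by
        have e1 : (a + 2) * √(N : ℝ) = a * √(N : ℝ) + 2 * √(N : ℝ) := by ring
        have e2 : 0 ≤ a * √(N : ℝ) := by positivity
        rw [e1] at hbig
        linarith
      rw [h2]
      have h5 : Real.exp ((1 - d) * x) * Real.exp (-1) ≤ Real.exp ((1 - d) * x) * (1 / 2) :=
        mul_le_mul_of_nonneg_left h3 (Real.exp_pos _).le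
      linarith
    have h2 : (1 - d) * x - 1 ≤ Real.log T := by
      rw [Real.le_log_iff_exp_le hT0]; exact h1
    linarith
  have hlen : 0 ≤ hi - lo := by linarith
  have hRA2 : (R : ℝ) * ((hi - lo) / A * x) ≤ d * (x * (hi - lo)) := by
    have h1 : (R : ℝ) * ((hi - lo) / A * x) = (R / A) * (x * (hi - lo)) := by ring
    rw [h1]
    apply mul_le_mul_of_nonneg_right _ (by positivity)
    rw [div_le_iff₀ hA0]; exact hAR
  have hE : 2 * (hi - lo) * (x - Real.log T) ≤ 2 * (hi - lo) * (d * x + 1) :=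
    mul_le_mul_of_nonneg_left hlogT (by positivity)
  -- terms with T
  have hRT2 : (R : ℝ) * T ≤ ε / 16 * N := by
    have h1 : (R : ℝ) * T ≤ R * (η * N) := mul_le_mul_of_nonneg_left hTη hR0.le
    have h2 : (R : ℝ) * η ≤ ε / 16 := by
      rw [hη, mul_div_assoc', div_le_div_iff₀ (by positivity) (by norm_num)]
      have e1 : (R : ℝ) * ε * 16 = ε * (16 * R) := by ring
      have e2 : ε * (16 * (R : ℝ)) ≤ ε * (16 * (R + 1)) := by
        apply mul_le_mul_of_nonneg_left (by linarith) hε.le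
      rw [e1]; exact e2
    calc (R : ℝ) * T ≤ R * (η * N) := h1
      _ = (R * η) * N := by ring
      _ ≤ ε / 16 * N := mul_le_mul_of_nonneg_right h2 hN0.le
  have hcoef : (1 / (16 * Real.log 2) + 3 * d) * x + (2 * c) ≤ 2 * x := by
    have h1 : 1 / (16 * Real.log 2) ≤ 1 / 8 := by
      apply one_div_le_one_div_of_le (by norm_num); linarith
    have h2 : (1 / (16 * Real.log 2) + 3 * d) * x ≤ (1 / 8 + 3 / 4) * x :=
      mul_le_mul_of_nonneg_right (by linarith) hx0.le
    linarith
  have hT1 : 2 * (R * T) * ((1 / (16 * Real.log 2) + 3 * d) * x + (2 * c)) ≤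
      ε / 4 * x * N := by
    calc 2 * (R * T) * ((1 / (16 * Real.log 2) + 3 * d) * x + (2 * c))
        ≤ 2 * (R * T) * (2 * x) := mul_le_mul_of_nonneg_left hcoef (by positivity)
      _ = 4 * x * (R * T) := by ring
      _ ≤ 4 * x * (ε / 16 * N) := mul_le_mul_of_nonneg_left hRT2 (by positivity)
      _ = _ := by ring
  have hx8 : 8 ≤ ε * x := by rw [div_le_iff₀ hε] at x10; linarith
  have hx11 : 8 * (c + 2) ≤ ε * x := by rw [div_le_iff₀ hε] at x11; linarith
  have hNN : (N : ℝ) ≤ ε / 8 * x * N := by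
    have := mul_le_mul_of_nonneg_right hx8 hN0.le
    linarith
  have hRTN : 2 * (R * T) ≤ ε / 8 * x * N := by
    have h1 : ε / 8 * N ≤ ε / 8 * x * N := by
      have h2 : (1 : ℝ) ≤ x := by linarith
      have h3 := mul_le_mul_of_nonneg_left h2 (by positivity : 0 ≤ ε / 8 * N)
      linarith
    linarith
  have hmainlen : (hi - lo) * ((1 / (16 * Real.log 2) + 3 * d) * x + (2 * c)) +
      2 * (d * (x * (hi - lo))) + 2 * (hi - lo) * (d * x + 1) ≤
      (1 / (16 * Real.log 2) + ε) * x * (hi - lo) := by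
    have h1 : (hi - lo) * (2 * c + 2) ≤ (hi - lo) * (ε / 4 * x) :=
      mul_le_mul_of_nonneg_left (by linarith) hlen
    have h2 : (hi - lo) * (7 * d * x) ≤ (hi - lo) * (7 / 16 * ε * x) := by
      apply mul_le_mul_of_nonneg_left _ hlen
      have := mul_le_mul_of_nonneg_right hdε hx0.le
      linarith
    have h3 : 0 ≤ (hi - lo) * (ε * x) := by positivity
    have e1 : (hi - lo) * ((1 / (16 * Real.log 2) + 3 * d) * x + (2 * c)) +
      2 * (d * (x * (hi - lo))) + 2 * (hi - lo) * (d * x + 1) =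
      1 / (16 * Real.log 2) * x * (hi - lo) + (hi - lo) * (2 * c + 2) +
        (hi - lo) * (7 * d * x) := by ring
    have e2 : (1 / (16 * Real.log 2) + ε) * x * (hi - lo) =
      1 / (16 * Real.log 2) * x * (hi - lo) + (hi - lo) * (ε * x) := by ring
    have e3 : (hi - lo) * (ε / 4 * x) + (hi - lo) * (7 / 16 * ε * x) =
      11 / 16 * ((hi - lo) * (ε * x)) := by ring
    rw [e1, e2]
    linarith
  have hexp : (hi - lo + 2 * (R * T)) * ((1 / (16 * Real.log 2) + 3 * d) * x + (2 * c)) =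
      (hi - lo) * ((1 / (16 * Real.log 2) + 3 * d) * x + (2 * c)) +
      2 * (R * T) * ((1 / (16 * Real.log 2) + 3 * d) * x + (2 * c)) := by ring
  have h0 : 2 * (R * ((hi - lo) / A * x + T)) = 2 * (R * ((hi - lo) / A * x)) + 2 * (R * T) := by
    ring
  rw [h0]
  have hpos : 0 ≤ ε * x * N := by positivity
  linarith

end Pool.Agent.Lib.MP_1ccaad_nt
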