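import Mathlib
import Pool.Agent.Lib.MP_1ccaad_nt.Level

set_option autoImplicit false

namespace Pool.Agent.Lib.MP_1ccaad_nt

open Finset Filter

theorem gap00 {p k n n' N : ℕ} (hp : p.Prime) (hn : 1 ≤ n) (hnn : n < n')
    (h1 : p ^ k ∣ n.factorial + 1) (h2 : p ^ k ∣ n'.factorial + 1)
    (hn' : n' ≤ N) : (k : ℝ) * Real.log p ≤ ((n' : ℝ) - n) * Real.log N := by
  have h3 := pow_dvd_asc hnn h1 h2
  have h4 : (1 : ℤ) < ((n + 1).ascFactorial (n' - n) : ℤ) := by
    have : 1 < (n + 1).ascFactorial (n' - n) := by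
      have h5 := Nat.pow_succ_le_ascFactorial (n + 1) (n' - n)
      have h6 : n + 1 ≤ (n + 1) ^ (n' - n) := Nat.le_self_pow (by omega) _
      omega
    exact_mod_cast this
  have h5 := Int.le_of_dvd (by omega) h3
  have h6 : p ^ k ≤ N ^ (n' - n) := by
    have h7 : ((p : ℤ) ^ k) ≤ ((n + 1).ascFactorial (n' - n) : ℤ) := by omega
    have h8 : p ^ k ≤ (n + 1).ascFactorial (n' - n) := by exact_mod_cast h7
    exact h8.trans (asc_le hnn hn')
  have h7 : (k : ℝ) * Real.log p ≤ ((n' - n : ℕ) : ℝ) * Real.log N := by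
    rw [← Real.log_pow, ← Real.log_pow]
    apply Real.log_le_log
    · have := hp.pos
      positivity
    · exact_mod_cast h6
  rw [Nat.cast_sub hnn.le] at h7
  exact h7

theorem log_fac_le {n N : ℕ} (hN : 2 ≤ N) (hn : n ≤ N) :
    Real.log ((n.factorial : ℝ) + 1) ≤ ((N : ℝ) + 1) * Real.log N := by
  have h3 : n.factorial + 1 ≤ N ^ (N + 1) := by
    have h4 : n.factorial ≤ N ^ N := (Nat.factorial_le hn).trans (Nat.factorial_le_pow N)
    have h5 : 1 ≤ N ^ N := Nat.one_le_pow _ _ (by omega)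
    rw [pow_succ]
    nlinarith
  have h4 : Real.log ((n.factorial : ℝ) + 1) ≤ Real.log ((N : ℝ) ^ (N + 1)) := by
    apply Real.log_le_log (by positivity)
    exact_mod_cast h3
  rw [Real.log_pow] at h4
  push_cast at h4
  exact h4

/-- the mass of one prime -/
theorem single (N p : ℕ) (hN : 3 ≤ N) (hp : p.Prime) (G : Finset ℕ)
    (hG : ∀ n ∈ G, 1 ≤ n ∧ n ≤ N) (hy : Real.log N / 2 ≤ Real.log p) :
    Real.log p * ∑ n ∈ G, (av p n : ℝ) ≤ N * Real.log N * (Real.log N + 5) := by
  set x := Real.log N with hx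
  set y := Real.log p with hy'
  have hN0 : (0 : ℝ) < N := by
    have : 0 < N := by omega
    exact_mod_cast this
  have hx0 : 0 < x := Real.log_pos (by exact_mod_cast (by omega : 1 < N))
  have hy0 : 0 < y := by linarith
  have hav : ∀ n ∈ G, (av p n : ℝ) * y ≤ ((N : ℝ) + 1) * x := by
    intro n hn
    have h1 : p ^ av p n ∣ n.factorial + 1 := (pow_dvd_iff_le_av hp).2 le_rfl
    have h2 := Nat.le_of_dvd (Nat.succ_pos _) h1
    have h3 : Real.log ((p : ℝ) ^ av p n) ≤ Real.log ((n.factorial : ℝ) + 1) := by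
      apply Real.log_le_log
      · have := hp.pos
        positivity
      · exact_mod_cast h2
    rw [Real.log_pow] at h3
    exact h3.trans (log_fac_le (by omega) (hG n hn).2)
  set B := ⌊((N : ℝ) + 1) * x / y⌋₊ with hB
  have havB : ∀ n ∈ G, av p n ≤ B := by
    intro n hn
    apply Nat.le_floor
    rw [le_div_iff₀ hy0]
    exact hav n hn
  have hBy : (B : ℝ) * y ≤ ((N : ℝ) + 1) * x := by
    have h1 : (B : ℝ) ≤ ((N : ℝ) + 1) * x / y := Nat.floor_le (by positivity)
    rwa [le_div_iff₀ hy0] at h1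
  have hsum := sum_levels p 0 B hp G havB
  have e1 : ∑ n ∈ G, ((av p n : ℝ) - min (av p n : ℝ) ((0 : ℕ) : ℝ)) = ∑ n ∈ G, (av p n : ℝ) := by
    apply Finset.sum_congr rfl
    intro n _
    have h1 : (0 : ℝ) ≤ av p n := Nat.cast_nonneg _
    rw [Nat.cast_zero, min_eq_right h1, sub_zero]
  rw [e1] at hsum
  rw [hsum]
  rcases Nat.eq_zero_or_pos B with hB0 | hB0
  · rw [hB0]
    simp only [Ioc_self, sum_empty, mul_zero]
    positivity
  have hlev : ∀ k ∈ Ioc 0 B, ((G.filter (fun n => p ^ k ∣ n.factorial + 1)).card : ℝ) ≤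
      N * x / y * (1 / k) + 1 := by
    intro k hk
    rw [mem_Ioc] at hk
    have hk0 : (0 : ℝ) < k := by exact_mod_cast hk.1
    have h1 := sep_card (G.filter (fun n => p ^ k ∣ n.factorial + 1)) 0 N ((k : ℝ) * y / x)
      (by positivity) hN0.le
      (fun n hn => ⟨Nat.cast_nonneg n, by exact_mod_cast (hG n (mem_filter.1 hn).1).2⟩)
      (fun n hn n' hn' h => by
        rw [mem_filter] at hn hn'
        rw [div_le_iff₀ hx0]
        exact gap00 hp (hG n hn.1).1 h hn.2 hn'.2 (hG n' hn'.1).2)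
    have h2 : ((N : ℝ) - 0) / ((k : ℝ) * y / x) = N * x / y * (1 / k) := by
      field_simp; ring
    rwa [h2] at h1
  have h1 : ∑ k ∈ Ioc 0 B, ((G.filter (fun n => p ^ k ∣ n.factorial + 1)).card : ℝ) ≤
      N * x / y * (1 + Real.log B) + B := by
    refine (Finset.sum_le_sum hlev).trans ?_
    rw [Finset.sum_add_distrib, ← Finset.mul_sum]
    have h2 : ∑ k ∈ Ioc 0 B, (1 : ℝ) / k ≤ 1 + Real.log B := by
      have h3 := sum_inv_le 1 B le_rfl hB0
      have h4 : Ioc 0 B = insert 1 (Ioc 1 B) := by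
        ext k; simp only [mem_Ioc, mem_insert]; omega
      rw [h4, Finset.sum_insert (by simp)]
      simp only [Nat.cast_one, Real.log_one] at h3 ⊢
      linarith
    have h5 : ∑ k ∈ Ioc 0 B, (1 : ℝ) = B := by simp
    rw [h5]
    have := mul_le_mul_of_nonneg_left h2 (by positivity : 0 ≤ N * x / y)
    linarith
  have hlogB : Real.log B ≤ x + 2 := by
    have hB0' : (0 : ℝ) < B := by exact_mod_cast hB0
    have h2 : (B : ℝ) ≤ 4 * N := by
      have h3 : (B : ℝ) * (x / 2) ≤ B * y := mul_le_mul_of_nonneg_left hy hB0'.le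
      have h4 : (1 : ℝ) ≤ N := by exact_mod_cast (by omega : 1 ≤ N)
      have h5 : (B : ℝ) * (x / 2) ≤ (2 * (N + 1)) * (x / 2) := by linarith
      have h6 : (B : ℝ) ≤ 2 * (N + 1) := le_of_mul_le_mul_right h5 (by positivity)
      linarith
    have h3 := Real.log_le_log hB0' h2
    rw [Real.log_mul (by norm_num) hN0.ne'] at h3
    have h4 : Real.log 4 ≤ 2 := by
      have h5 : (4 : ℝ) = 2 ^ 2 := by norm_num
      have := Real.log_two_lt_d9
      rw [h5, Real.log_pow]; push_cast; linarith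
    linarith
  have h2 := mul_le_mul_of_nonneg_left h1 hy0.le
  have h3 : y * (N * x / y * (1 + Real.log B) + B) = N * x * (1 + Real.log B) + B * y := by
    field_simp
  rw [h3] at h2
  have h4 : N * x * (1 + Real.log B) ≤ N * x * (x + 3) :=
    mul_le_mul_of_nonneg_left (by linarith) (by positivity)
  have h5 : ((N : ℝ) + 1) * x ≤ 2 * N * x := by
    have : (1 : ℝ) ≤ N := by exact_mod_cast (by omega : 1 ≤ N)
    nlinarith
  have h6 : N * x * (x + 5) = N * x * (x + 3) + 2 * N * x := by ring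
  rw [h6]
  linarith

end Pool.Agent.Lib.MP_1ccaad_nt
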