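import Mathlib
import Pool.Agent.Lib.MP_1ccaad_nt.PerPrimeEv
import Pool.Agent.Lib.MP_1ccaad_nt.Mass
import Pool.Agent.Lib.MP_1ccaad_nt.Single

set_option autoImplicit false

namespace Pool.Agent.Lib.MP_1ccaad_nt

open Finset Filter

/-- the interval of the `n` which can see the prime `p` -/
noncomputable def II (C : ℝ) (m N p : ℕ) : Finset ℕ :=
  (Icc 1 N).filter (fun n : ℕ => N ≤ m * n ∧ n < p ∧ (p : ℝ) ≤ C * n)

theorem II_bound (C : ℝ) (hC : 0 ≤ C) (m N p : ℕ) (h : (II C m N p).Nonempty) :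
    ∃ lo hi : ℝ, lo ≤ hi ∧ hi - lo ≤ (II C m N p).card ∧ hi - lo ≤ N ∧
      ∀ n ∈ II C m N p, lo ≤ (n : ℝ) ∧ (n : ℝ) ≤ hi := by
  set I := II C m N p with hI
  refine ⟨(I.min' h : ℕ), (I.max' h : ℕ), ?_, ?_, ?_, ?_⟩
  · exact_mod_cast Finset.min'_le_max' I h
  · have h1 := Finset.min'_mem I h
    have h2 := Finset.max'_mem I h
    have h3 := Finset.min'_le_max' I h
    set u := I.min' h
    set v := I.max' h
    rw [hI] at h1 h2
    unfold II at h1 h2
    rw [mem_filter, mem_Icc] at h1 h2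
    have h4 : Icc u v ⊆ I := by
      intro n hn
      rw [mem_Icc] at hn
      rw [hI]; unfold II
      rw [mem_filter, mem_Icc]
      refine ⟨⟨by omega, by omega⟩, ?_, by omega, ?_⟩
      · exact h1.2.1.trans (Nat.mul_le_mul_left _ hn.1)
      · refine h1.2.2.2.trans ?_
        have : (u : ℝ) ≤ n := by exact_mod_cast hn.1
        exact mul_le_mul_of_nonneg_left this hC
    have h5 := Finset.card_le_card h4
    rw [Nat.card_Icc] at h5
    have h6 : v ≤ I.card + u := by omega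
    have h7 : (v : ℝ) ≤ I.card + u := by exact_mod_cast h6
    linarith
  · have h2 := Finset.max'_mem I h
    set v := I.max' h
    rw [hI] at h2
    unfold II at h2
    rw [mem_filter, mem_Icc] at h2
    have : (v : ℝ) ≤ N := by exact_mod_cast h2.1.2
    have h0 : (0 : ℝ) ≤ (I.min' h : ℕ) := Nat.cast_nonneg _
    linarith
  · intro n hn
    exact ⟨by exact_mod_cast Finset.min'_le I n hn, by exact_mod_cast Finset.le_max' I n hn⟩

theorem log_eq_sum (n : ℕ) (Pr : Finset ℕ) (h : (n.factorial + 1).primeFactors ⊆ Pr) :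
    Real.log ((n.factorial : ℝ) + 1) = ∑ p ∈ Pr, Real.log p * (av p n : ℝ) := by
  have h1 : ((n.factorial : ℝ) + 1) = ((n.factorial + 1 : ℕ) : ℝ) := by push_cast; ring
  rw [h1, Real.log_nat_eq_sum_factorization, Finsupp.sum, Nat.support_factorization]
  rw [Finset.sum_subset h]
  · apply Finset.sum_congr rfl
    intro p _
    unfold av
    ring
  · intro p _ hp
    have : (n.factorial + 1).factorization p = 0 := by
      rw [← Finsupp.notMem_support_iff, Nat.support_factorization]; exact hp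
    rw [this]; simp

/-- The main inequality: `G` is a set of `n ≤ N`, `E` a set of exceptional primes. -/
theorem main (C : ℝ) (hC1 : 1 < C) (hC : C < 1 + 16 * Real.log 2) :
    ∃ c : ℝ, 0 < c ∧ ∀ᶠ N : ℕ in atTop, ∀ G E : Finset ℕ, G ⊆ Icc 1 N →
      (∀ n ∈ G, ∀ p : ℕ, p.Prime → p ∣ n.factorial + 1 → p ∉ E → (p : ℝ) ≤ C * n) →
      c * N ≤ ((Icc 1 N \ G).card : ℝ) + (E.card : ℝ) * Real.log N := by
  classical
  have hl2a := Real.log_two_gt_d9
  have hl2b := Real.log_two_lt_d9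
  have hl2 : 0 < Real.log 2 := by linarith
  set A0 := 1 / (16 * Real.log 2) with hA0
  have hA00 : 0 < A0 := by positivity
  have hA01 : A0 ≤ 1 / 8 := by
    rw [hA0]; apply one_div_le_one_div_of_le (by norm_num); linarith
  set γ := 1 - A0 * (C - 1) with hγ
  have hγ0 : 0 < γ := by
    have h1 : A0 * (C - 1) < A0 * (16 * Real.log 2) := by
      apply mul_lt_mul_of_pos_left _ hA00; linarith
    have h2 : A0 * (16 * Real.log 2) = 1 := by rw [hA0]; field_simp
    rw [hγ]; linarith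
  have hγ1 : γ ≤ 1 := by
    have : 0 ≤ A0 * (C - 1) := mul_nonneg hA00.le (by linarith)
    rw [hγ]; linarith
  have hC12 : C < 13 := by linarith
  set ε := γ / 200 with hε
  have hε0 : 0 < ε := by positivity
  set h := √(γ / 200) with hh
  have hh0 : 0 < h := Real.sqrt_pos.2 (by positivity)
  have hh2 : h ^ 2 = γ / 200 := Real.sq_sqrt (by positivity)
  obtain ⟨m, hm⟩ := exists_nat_ge (50 / γ)
  have hm0 : (0 : ℝ) < m := lt_of_lt_of_le (by positivity) hm
  have hm1 : 1 ≤ m := by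
    have : 0 < m := by exact_mod_cast hm0
    omega
  have hminv : 1 / (m : ℝ) ≤ γ / 50 := by
    rw [div_le_iff₀ hm0]
    rw [div_le_iff₀ hγ0] at hm
    linarith
  refine ⟨γ / 100, by positivity, ?_⟩
  filter_upwards [per_prime ε (h ^ 2) hε0 (by positivity) m hm1,
    mass_primes C ε hC1 hε0 m hm1, eventually_ge_atTop 3,
    ev_log ((2 + 8 * h * C) / (γ / 10)), ev_log (2 * Real.log m), ev_log 5,
    (Real.tendsto_sqrt_atTop.comp tendsto_natCast_atTop_atTop).eventually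
      (eventually_ge_atTop (1 / h ^ 2 + 1 / h + h))] with N hpp hmp hN3 hx1 hxm hx5 hsq
  intro G₀ E hG₀ hGE
  by_contra hcon
  push Not at hcon
  have hN2 : 2 ≤ N := by omega
  have hN0 : (0 : ℝ) < N := by
    have : 0 < N := by omega
    exact_mod_cast this
  set x := Real.log N with hx
  have hx0 : 0 < x := Real.log_pos (by exact_mod_cast hN2)
  have hC0 : 0 < C := by linarith
  have hcon1 : ((Icc 1 N \ G₀).card : ℝ) ≤ γ / 100 * N := by
    have h1 : 0 ≤ (E.card : ℝ) * x := by positivity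
    linarith
  have hcon2 : (E.card : ℝ) * x ≤ γ / 100 * N := by
    have h1 : (0 : ℝ) ≤ ((Icc 1 N \ G₀).card : ℝ) := Nat.cast_nonneg _
    linarith
  set G := G₀.filter (fun n => N ≤ m * n) with hG
  have hGm : ∀ n ∈ G, (1 ≤ n ∧ n ≤ N) ∧ N ≤ m * n ∧ n ∈ G₀ := by
    intro n hn
    rw [hG, mem_filter] at hn
    exact ⟨mem_Icc.1 (hG₀ hn.1), hn.2, hn.1⟩
  have hGsub : G ⊆ Icc 1 N := (Finset.filter_subset _ _).trans hG₀
  set Pr := ((Icc 1 ⌊C * N⌋₊).filter Nat.Prime).filter (fun p => p ∉ E) with hPr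
  have hPrp : ∀ p ∈ Pr, p.Prime := fun p hp => (mem_filter.1 (mem_filter.1 hp).1).2
  have hPrE : ∀ p ∈ Pr, p ∉ E := fun p hp => (mem_filter.1 hp).2
  have hPrsub : Pr ⊆ (Icc 1 ⌊C * N⌋₊).filter Nat.Prime := Finset.filter_subset _ _
  set E₁ := E.filter (fun p => p.Prime ∧ ∃ n ∈ G, p ∣ n.factorial + 1) with hE₁
  have hdisj : Disjoint Pr E₁ := by
    rw [Finset.disjoint_left]
    intro p hp hp2
    exact hPrE p hp (mem_filter.1 hp2).1
  -- (1) the exceptional set
  have hcard : ((Icc 1 N \ G).card : ℝ) ≤ 3 * γ / 100 * N := by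
    have h1 : Icc 1 N \ G ⊆ (Icc 1 N \ G₀) ∪ Icc 1 (N / m) := by
      intro n hn
      rw [Finset.mem_sdiff, hG, mem_filter, mem_Icc] at hn
      rw [mem_union, Finset.mem_sdiff, mem_Icc, mem_Icc]
      by_cases hb : n ∈ G₀
      · right
        have h2 : ¬ N ≤ m * n := fun h3 => hn.2 ⟨hb, h3⟩
        refine ⟨hn.1.1, ?_⟩
        rw [Nat.le_div_iff_mul_le (by omega)]
        rw [mul_comm] at h2
        omega
      · exact Or.inl ⟨hn.1, hb⟩
    have h2 := (Finset.card_le_card h1).trans (Finset.card_union_le _ _)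
    rw [Nat.card_Icc, Nat.add_sub_cancel] at h2
    have h3 : ((Icc 1 N \ G).card : ℝ) ≤
        ((Icc 1 N \ G₀).card : ℝ) + ((N / m : ℕ) : ℝ) := by
      exact_mod_cast h2
    have h4 : ((N / m : ℕ) : ℝ) ≤ γ / 50 * N := by
      refine Nat.cast_div_le.trans ?_
      have := mul_le_mul_of_nonneg_right hminv hN0.le
      calc (N : ℝ) / m = 1 / m * N := by ring
        _ ≤ _ := this
    linarith
  -- (2) lower bound for the mass
  have hlow := mass_lower N (by omega) G hGsub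
  rw [← hx] at hlow
  -- (3) factorisation
  have hfac : ∀ n ∈ G, Real.log ((n.factorial : ℝ) + 1) =
      ∑ p ∈ Pr ∪ E₁, Real.log p * (av p n : ℝ) := by
    intro n hn
    have hn' := hGm n hn
    apply log_eq_sum
    intro p hp
    have hpp' := Nat.prime_of_mem_primeFactors hp
    have hpd : p ∣ n.factorial + 1 := Nat.dvd_of_mem_primeFactors hp
    rw [mem_union]
    by_cases hpE : p ∈ E
    · right
      rw [hE₁, mem_filter]
      exact ⟨hpE, hpp', n, hn, hpd⟩
    · left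
      rw [hPr, mem_filter, mem_filter, mem_Icc]
      refine ⟨⟨⟨hpp'.one_lt.le, ?_⟩, hpp'⟩, hpE⟩
      apply Nat.le_floor
      have h1 : (p : ℝ) ≤ C * n := hGE n hn'.2.2 p hpp' hpd hpE
      have h2 : (n : ℝ) ≤ N := by exact_mod_cast hn'.1.2
      exact h1.trans (mul_le_mul_of_nonneg_left h2 hC0.le)
  set K := ⌈h ^ 2 * √(N : ℝ)⌉₊ with hK
  have hsum : ∑ n ∈ G, Real.log ((n.factorial : ℝ) + 1) =
      ∑ p ∈ Pr, Real.log p * ∑ n ∈ G, min (av p n : ℝ) K +
      ∑ p ∈ Pr, Real.log p * ∑ n ∈ G, ((av p n : ℝ) - min (av p n : ℝ) K) +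
      ∑ p ∈ E₁, Real.log p * ∑ n ∈ G, (av p n : ℝ) := by
    rw [Finset.sum_congr rfl hfac, Finset.sum_comm, Finset.sum_union hdisj,
      ← Finset.sum_add_distrib]
    congr 1
    · apply Finset.sum_congr rfl
      intro p _
      rw [← Finset.mul_sum, ← mul_add, ← Finset.sum_add_distrib]
      congr 1
      apply Finset.sum_congr rfl
      intro n _
      ring
    · apply Finset.sum_congr rfl
      intro p _
      rw [← Finset.mul_sum]
  -- Chebyshev
  have hlogp : ∀ p ∈ Pr, 0 ≤ Real.log p := fun p _ => Real.log_natCast_nonneg p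
  have hθ : ∑ p ∈ Pr, Real.log p ≤ 2 * (C * N) := by
    have h1 := Chebyshev.theta_le_log4_mul_x (x := C * N) (by positivity)
    have h2 : Chebyshev.theta (C * N) =
        ∑ p ∈ (Icc 1 ⌊C * N⌋₊).filter Nat.Prime, Real.log p := by
      rw [Chebyshev.theta_eq_theta_coe_floor, Chebyshev.theta_eq_sum_primesLE_log,
        Nat.primesLE_eq_filter_Icc_one]
    rw [h2] at h1
    have h3 : Real.log 4 ≤ 2 := by
      have : (4 : ℝ) = 2 ^ 2 := by norm_num
      rw [this, Real.log_pow]; push_cast; linarith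
    refine (Finset.sum_le_sum_of_subset_of_nonneg hPrsub
      (fun p _ _ => Real.log_natCast_nonneg p)).trans (h1.trans ?_)
    exact mul_le_mul_of_nonneg_right h3 (by positivity)
  have hθ0 : 0 ≤ ∑ p ∈ Pr, Real.log p := Finset.sum_nonneg hlogp
  -- (4) the exceptional primes
  have hexc : ∑ p ∈ E₁, Real.log p * ∑ n ∈ G, (av p n : ℝ) ≤ γ / 50 * x * (N : ℝ) ^ 2 := by
    have h1 : ∀ p ∈ E₁, Real.log p * ∑ n ∈ G, (av p n : ℝ) ≤ N * x * (x + 5) := by
      intro p hp
      rw [hE₁, mem_filter] at hp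
      obtain ⟨_, hpp', n, hn, hd⟩ := hp
      apply single N p hN3 hpp' G (fun n hn => (hGm n hn).1)
      have h2 := log_ge hpp' (k := 1) le_rfl (by simpa using hd) (hGm n hn).2.1 (by omega)
      rw [← hx] at h2 ⊢
      linarith
    refine (Finset.sum_le_sum h1).trans ?_
    rw [Finset.sum_const, nsmul_eq_mul]
    have h2 : (E₁.card : ℝ) ≤ E.card := by
      exact_mod_cast Finset.card_le_card (Finset.filter_subset _ _)
    have h3 : N * x * (x + 5) ≤ 2 * N * x * x := by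
      have h4 : N * x * (x + 5) = N * x * x + N * x * 5 := by ring
      have h5 : (N : ℝ) * x * 5 ≤ N * x * x := mul_le_mul_of_nonneg_left hx5 (by positivity)
      rw [h4]; linarith
    calc (E₁.card : ℝ) * (N * x * (x + 5)) ≤ E.card * (2 * N * x * x) :=
          mul_le_mul h2 h3 (by positivity) (Nat.cast_nonneg _)
      _ = (E.card * x) * (2 * N * x) := by ring
      _ ≤ (γ / 100 * N) * (2 * N * x) := mul_le_mul_of_nonneg_right hcon2 (by positivity)
      _ = _ := by ring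
  -- (5) low levels
  have hsq1 : 1 / h ^ 2 + 1 / h + h ≤ √(N : ℝ) := hsq
  have hs0 : 0 < √(N : ℝ) := Real.sqrt_pos.2 hN0
  have hss : √(N : ℝ) * √(N : ℝ) = N := Real.mul_self_sqrt hN0.le
  have i1 : 0 < 1 / h ^ 2 := by positivity
  have i2 : 0 < 1 / h := by positivity
  set H := ⌈h * √(N : ℝ)⌉₊ with hH
  have hHlow : h * √(N : ℝ) ≤ H := Nat.le_ceil _
  have hHpos : 1 ≤ H := by rw [hH, Nat.one_le_ceil_iff]; positivity
  have hHup : (H : ℝ) ≤ 2 * (h * √(N : ℝ)) := by
    have h1 : (H : ℝ) < h * √(N : ℝ) + 1 := Nat.ceil_lt_add_one (by positivity)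
    have h2 : 1 ≤ h * √(N : ℝ) := by
      have h3 : 1 / h ≤ √(N : ℝ) := by linarith
      have := mul_le_mul_of_nonneg_left h3 hh0.le
      rwa [mul_one_div_cancel hh0.ne'] at this
    linarith
  have hKup : (K : ℝ) ≤ 2 * (h ^ 2 * √(N : ℝ)) := by
    have h1 : (K : ℝ) < h ^ 2 * √(N : ℝ) + 1 := Nat.ceil_lt_add_one (by positivity)
    have h2 : 1 ≤ h ^ 2 * √(N : ℝ) := by
      have h3 : 1 / h ^ 2 ≤ √(N : ℝ) := by linarith
      have := mul_le_mul_of_nonneg_left h3 (by positivity : 0 ≤ h ^ 2)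
      rwa [mul_one_div_cancel (by positivity)] at this
    linarith
  have hNH : (N : ℝ) / H + 1 ≤ 2 * √(N : ℝ) / h := by
    have h1 : (N : ℝ) / H ≤ √(N : ℝ) / h := by
      rw [div_le_div_iff₀ (by exact_mod_cast hHpos) hh0]
      calc (N : ℝ) * h = (√(N : ℝ) * √(N : ℝ)) * h := by rw [hss]
        _ = √(N : ℝ) * (h * √(N : ℝ)) := by ring
        _ ≤ √(N : ℝ) * H := mul_le_mul_of_nonneg_left hHlow hs0.le
    have h2 : 1 ≤ √(N : ℝ) / h := by
      rw [le_div_iff₀ hh0]; linarith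
    have h3 : 2 * √(N : ℝ) / h = √(N : ℝ) / h + √(N : ℝ) / h := by ring
    linarith
  have hlev := low_levels N H K (by omega) hHpos G (fun n hn => (hGm n hn).1) Pr hPrp
  rw [← hx] at hlev
  have hlow2 : ∑ p ∈ Pr, Real.log p * ∑ n ∈ G, min (av p n : ℝ) K ≤
      8 * h * C * (N : ℝ) ^ 2 + 16 * h ^ 2 * x * (N : ℝ) ^ 2 := by
    refine hlev.trans ?_
    have h1 : (K : ℝ) * ∑ p ∈ Pr, Real.log p ≤ 2 * (h ^ 2 * √(N : ℝ)) * (2 * (C * N)) :=
      mul_le_mul hKup hθ hθ0 (by positivity)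
    have h2 : (H : ℝ) ^ 3 * x ≤ (2 * (h * √(N : ℝ))) ^ 3 * x := by
      apply mul_le_mul_of_nonneg_right _ hx0.le
      exact pow_le_pow_left₀ (Nat.cast_nonneg H) hHup 3
    have h3 : ((N : ℝ) / H + 1) * (K * ∑ p ∈ Pr, Real.log p + (H : ℝ) ^ 3 * x) ≤
        (2 * √(N : ℝ) / h) * (2 * (h ^ 2 * √(N : ℝ)) * (2 * (C * N)) +
          (2 * (h * √(N : ℝ))) ^ 3 * x) := by
      apply mul_le_mul hNH (add_le_add h1 h2) _ (by positivity)
      have : (0 : ℝ) ≤ K := Nat.cast_nonneg K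
      positivity
    refine h3.trans (le_of_eq ?_)
    have e1 : (2 * √(N : ℝ) / h) * (2 * (h ^ 2 * √(N : ℝ)) * (2 * (C * N)) +
          (2 * (h * √(N : ℝ))) ^ 3 * x) =
        8 * h * C * (√(N : ℝ) * √(N : ℝ)) * N +
          16 * h ^ 2 * x * (√(N : ℝ) * √(N : ℝ)) * (√(N : ℝ) * √(N : ℝ)) := by
      field_simp
      ring
    rw [e1, hss]; ring
  -- (6) high levels
  have hhigh : ∀ p ∈ Pr, Real.log p * ∑ n ∈ G, ((av p n : ℝ) - min (av p n : ℝ) K) ≤
      (A0 + ε) * x * (Real.log p * ((II C m N p).card : ℝ)) + ε * x * N * Real.log p := by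
    intro p hp
    have hpp' := hPrp p hp
    have hGI : ∀ n ∈ G, p ∣ n.factorial + 1 → n ∈ II C m N p := by
      intro n hn hd
      have hn' := hGm n hn
      unfold II
      rw [mem_filter, mem_Icc]
      exact ⟨hn'.1, hn'.2.1, lt_of_dvd hpp' (k := 1) le_rfl (by simpa using hd),
        hGE n hn'.2.2 p hpp' hd (hPrE p hp)⟩
    have hkey : ∑ n ∈ G, ((av p n : ℝ) - min (av p n : ℝ) K) ≤
        (A0 + ε) * x * ((II C m N p).card : ℝ) + ε * x * N := by
      rcases (II C m N p).eq_empty_or_nonempty with he | hne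
      · have h1 : ∑ n ∈ G, ((av p n : ℝ) - min (av p n : ℝ) K) = 0 := by
          apply Finset.sum_eq_zero
          intro n hn
          have h2 : av p n = 0 := by
            by_contra hc
            have h3 : p ^ 1 ∣ n.factorial + 1 := (pow_dvd_iff_le_av hpp').2 (by omega)
            rw [pow_one] at h3
            have := hGI n hn h3
            rw [he] at this
            simp at this
          rw [h2]; simp
        rw [h1]
        positivity
      · obtain ⟨lo, hi, b1, b2, b3, b4⟩ := II_bound C hC0.le m N p hne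
        have h1 := hpp p hpp' G (fun n hn => ⟨(hGm n hn).1.2, (hGm n hn).2.1⟩) lo hi b1 b3
          (fun n hn hd => b4 n (hGI n hn hd))
        refine h1.trans ?_
        have h2 : (A0 + ε) * x * (hi - lo) ≤ (A0 + ε) * x * ((II C m N p).card : ℝ) :=
          mul_le_mul_of_nonneg_left b2 (by positivity)
        linarith
    have h1 := mul_le_mul_of_nonneg_left hkey (hlogp p hp)
    calc _ ≤ _ := h1
      _ = _ := by ring
  have hmp' : ∑ p ∈ Pr, Real.log p * ((II C m N p).card : ℝ) ≤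
      (C - 1 + ε) * (N : ℝ) ^ 2 / 2 := by
    refine (Finset.sum_le_sum_of_subset_of_nonneg hPrsub (fun p _ _ => ?_)).trans hmp
    exact mul_nonneg (Real.log_natCast_nonneg p) (Nat.cast_nonneg _)
  have hhigh2 : ∑ p ∈ Pr, Real.log p * ∑ n ∈ G, ((av p n : ℝ) - min (av p n : ℝ) K) ≤
      (A0 + ε) * x * ((C - 1 + ε) * (N : ℝ) ^ 2 / 2) + ε * x * N * (2 * (C * N)) := by
    refine (Finset.sum_le_sum hhigh).trans ?_
    rw [Finset.sum_add_distrib, ← Finset.mul_sum, ← Finset.mul_sum]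
    apply add_le_add
    · exact mul_le_mul_of_nonneg_left hmp' (by positivity)
    · exact mul_le_mul_of_nonneg_left hθ (by positivity)
  -- conclusion
  have hfinal : (N : ℝ) ^ 2 / 2 * x - 2 * (N : ℝ) ^ 2 - 3 * γ / 100 * N * (N * x) ≤
      8 * h * C * (N : ℝ) ^ 2 + 16 * h ^ 2 * x * (N : ℝ) ^ 2 +
      ((A0 + ε) * x * ((C - 1 + ε) * (N : ℝ) ^ 2 / 2) + ε * x * N * (2 * (C * N))) +
      γ / 50 * x * (N : ℝ) ^ 2 := by
    have h1 : ((Icc 1 N \ G).card : ℝ) * (N * x) ≤ 3 * γ / 100 * N * (N * x) :=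
      mul_le_mul_of_nonneg_right hcard (by positivity)
    rw [hsum] at hlow
    linarith
  have hdiv : x / 2 - 2 - 3 * γ / 100 * x ≤ 8 * h * C + 16 * h ^ 2 * x +
      ((A0 + ε) * x * ((C - 1 + ε) / 2) + ε * x * (2 * C)) + γ / 50 * x := by
    have hNN : 0 < (N : ℝ) ^ 2 := by positivity
    apply le_of_mul_le_mul_left _ hNN
    calc (N : ℝ) ^ 2 * (x / 2 - 2 - 3 * γ / 100 * x)
        = (N : ℝ) ^ 2 / 2 * x - 2 * (N : ℝ) ^ 2 - 3 * γ / 100 * N * (N * x) := by ring
      _ ≤ _ := hfinal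
      _ = _ := by ring
  have hx2 : 2 + 8 * h * C ≤ γ / 10 * x := by
    rw [div_le_iff₀ (by positivity)] at hx1; linarith
  have hA1 : (A0 + ε) * ((C - 1 + ε) / 2) ≤ (1 - γ) / 2 + 7 * ε := by
    have h1 : (A0 + ε) * ((C - 1 + ε) / 2) = A0 * (C - 1) / 2 + ε * (A0 + (C - 1) + ε) / 2 := by
      ring
    have h2 : A0 * (C - 1) = 1 - γ := by rw [hγ]; ring
    have h3 : ε ≤ 1 := by rw [hε]; linarith
    have h4 : ε * (A0 + (C - 1) + ε) ≤ ε * 14 := by
      apply mul_le_mul_of_nonneg_left _ hε0.le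
      linarith
    rw [h1, h2]; linarith
  have hA2 : (A0 + ε) * x * ((C - 1 + ε) / 2) ≤ ((1 - γ) / 2 + 7 * ε) * x := by
    have := mul_le_mul_of_nonneg_right hA1 hx0.le
    calc (A0 + ε) * x * ((C - 1 + ε) / 2) = (A0 + ε) * ((C - 1 + ε) / 2) * x := by ring
      _ ≤ _ := this
  have hA3 : ε * x * (2 * C) ≤ 26 * ε * x := by
    have h1 : 2 * C ≤ 26 := by linarith
    have := mul_le_mul_of_nonneg_left h1 (by positivity : 0 ≤ ε * x)
    linarith
  rw [hh2] at hdiv
  have hεγ : ε = γ / 200 := hε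
  rw [hεγ] at hA2 hA3 hdiv
  have hγx : 0 < γ * x := by positivity
  have e1 : ((1 - γ) / 2 + 7 * (γ / 200)) * x = x / 2 - 93 / 200 * (γ * x) := by ring
  have e2 : 26 * (γ / 200) * x = 26 / 200 * (γ * x) := by ring
  have e3 : 16 * (γ / 200) * x = 16 / 200 * (γ * x) := by ring
  have e4 : 3 * γ / 100 * x = 6 / 200 * (γ * x) := by ring
  have e5 : γ / 10 * x = 20 / 200 * (γ * x) := by ring
  have e6 : γ / 50 * x = 4 / 200 * (γ * x) := by ring
  rw [e1] at hA2
  rw [e2] at hA3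
  rw [e5] at hx2
  rw [e4, e6, e3] at hdiv
  linarith

/-- the least `n` with `p ∣ n! + 1` -/
noncomputable def ff (p : ℕ) : ℕ := sInf {n : ℕ | p ∣ n.factorial + 1}

theorem ff_le {p n : ℕ} (h : p ∣ n.factorial + 1) : ff p ≤ n := Nat.sInf_le h

theorem ff_mem {p : ℕ} (hp : p.Prime) : p ∣ (ff p).factorial + 1 := by
  have hne : {n : ℕ | p ∣ n.factorial + 1}.Nonempty := by
    refine ⟨p - 1, ?_⟩
    have := Fact.mk hp
    have h1 := ZMod.wilsons_lemma p
    have h2 : ((((p - 1).factorial + 1 : ℕ)) : ZMod p) = 0 := by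
      push_cast
      rw [h1]; ring
    exact (ZMod.natCast_eq_zero_iff _ _).1 h2
  exact Nat.sInf_mem hne

theorem finite_ff (N : ℕ) : {p : ℕ | p.Prime ∧ ff p ≤ N}.Finite := by
  have h : {p : ℕ | p.Prime ∧ ff p ≤ N} ⊆
      ((range (N + 1)).biUnion (fun n => (n.factorial + 1).primeFactors) : Finset ℕ) := by
    intro p hp
    simp only [coe_biUnion, Set.mem_iUnion]
    refine ⟨ff p, ?_, ?_⟩
    · simpa [Nat.lt_succ_iff] using hp.2
    · exact Nat.mem_primeFactors.2 ⟨hp.1, ff_mem hp.1, Nat.succ_ne_zero _⟩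
  exact Set.Finite.subset (Finset.finite_toSet _) h

theorem final (C : ℝ) (hC : C < 1 + 16 * Real.log 2) :
    ∃ c : ℝ, 0 < c ∧ ∃ N₀ : ℕ, ∀ N : ℕ, N₀ ≤ N →
      c * N ≤ ({n : ℕ | n ≤ N ∧ ∃ p : ℕ, p.Prime ∧ p ∣ n.factorial + 1 ∧ C * n < p}.ncard : ℝ) ∧
      c * (N / Real.log N) ≤
        ({p : ℕ | p.Prime ∧ ff p ≤ N ∧ C * ff p < p}.ncard : ℝ) := by
  classical
  have hl2a := Real.log_two_gt_d9
  set C' := max C 2 with hC'
  have hC1 : 1 < C' := lt_of_lt_of_le (by norm_num) (le_max_right _ _)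
  have hC2 : C' < 1 + 16 * Real.log 2 := max_lt hC (by linarith)
  have hCC : C ≤ C' := le_max_left _ _
  obtain ⟨c, hc, hev⟩ := main C' hC1 hC2
  obtain ⟨N₀, hN₀⟩ := eventually_atTop.1 hev
  refine ⟨c, hc, max N₀ 2, fun N hN => ?_⟩
  have hN1 : N₀ ≤ N := (le_max_left _ _).trans hN
  have hN2 : 2 ≤ N := (le_max_right _ _).trans hN
  have hx0 : 0 < Real.log N := Real.log_pos (by exact_mod_cast hN2)
  constructor
  · -- a positive proportion of the `n`
    set G := (Icc 1 N).filter (fun n : ℕ => ¬ ∃ p : ℕ, p.Prime ∧ p ∣ n.factorial + 1 ∧ C' * n < p)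
      with hG
    have h1 := hN₀ N hN1 G ∅ (Finset.filter_subset _ _) (by
      intro n hn p hp hd _
      rw [hG, mem_filter] at hn
      by_contra hc
      push Not at hc
      exact hn.2 ⟨p, hp, hd, hc⟩)
    rw [card_empty, Nat.cast_zero, zero_mul, add_zero] at h1
    refine h1.trans ?_
    have hfin : {n : ℕ | n ≤ N ∧ ∃ p : ℕ, p.Prime ∧ p ∣ n.factorial + 1 ∧ C * n < p}.Finite :=
      (Set.finite_Iic N).subset (fun n hn => hn.1)
    have h2 : ((Icc 1 N \ G : Finset ℕ) : Set ℕ) ⊆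
        {n : ℕ | n ≤ N ∧ ∃ p : ℕ, p.Prime ∧ p ∣ n.factorial + 1 ∧ C * n < p} := by
      intro n hn
      rw [Finset.mem_coe, Finset.mem_sdiff, hG, mem_filter, mem_Icc] at hn
      have h3 : ∃ p : ℕ, p.Prime ∧ p ∣ n.factorial + 1 ∧ C' * n < p := by
        by_contra hc
        exact hn.2 ⟨hn.1, hc⟩
      obtain ⟨p, hp, hd, hlt⟩ := h3
      refine ⟨hn.1.2, p, hp, hd, lt_of_le_of_lt ?_ hlt⟩
      exact mul_le_mul_of_nonneg_right hCC (Nat.cast_nonneg n)
    have h3 := Set.ncard_le_ncard h2 hfin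
    rw [Set.ncard_coe_finset] at h3
    exact_mod_cast h3
  · -- many primes
    set E := (Icc 1 N).biUnion (fun n => (n.factorial + 1).primeFactors.filter
      (fun p : ℕ => C' * n < p)) with hE
    have h1 := hN₀ N hN1 (Icc 1 N) E (Finset.Subset.refl _) (by
      intro n hn p hp hd hpE
      by_contra hc
      push Not at hc
      apply hpE
      rw [hE, mem_biUnion]
      exact ⟨n, hn, mem_filter.2 ⟨Nat.mem_primeFactors.2 ⟨hp, hd, Nat.succ_ne_zero _⟩, hc⟩⟩)
    rw [Finset.sdiff_self, card_empty, Nat.cast_zero, zero_add] at h1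
    have h2 : c * (N / Real.log N) ≤ (E.card : ℝ) := by
      rw [← mul_div_assoc, div_le_iff₀ hx0]
      exact h1
    refine h2.trans ?_
    have hfin : {p : ℕ | p.Prime ∧ ff p ≤ N ∧ C * ff p < p}.Finite :=
      (finite_ff N).subset (fun p hp => ⟨hp.1, hp.2.1⟩)
    have h3 : (E : Set ℕ) ⊆ {p : ℕ | p.Prime ∧ ff p ≤ N ∧ C * ff p < p} := by
      intro p hp
      rw [Finset.mem_coe, hE, mem_biUnion] at hp
      obtain ⟨n, hn, hp⟩ := hp
      rw [mem_filter, Nat.mem_primeFactors] at hp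
      rw [mem_Icc] at hn
      have h4 := ff_le hp.1.2.1
      refine ⟨hp.1.1, h4.trans hn.2, ?_⟩
      have h5 : (ff p : ℝ) ≤ n := by exact_mod_cast h4
      have h6 : C * ff p ≤ C' * ff p := mul_le_mul_of_nonneg_right hCC (Nat.cast_nonneg _)
      have h7 : C' * ff p ≤ C' * n := mul_le_mul_of_nonneg_left h5 (by linarith)
      linarith [hp.2]
    have h4 := Set.ncard_le_ncard h3 hfin
    rw [Set.ncard_coe_finset] at h4
    exact_mod_cast h4

end Pool.Agent.Lib.MP_1ccaad_nt
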